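import Pool.Agent.R814.Lam.Basic

/-!
# From roundings with laminar constraints to assignments of colours
-/

set_option autoImplicit false

namespace Pool.Agent.J4.H92.BF

open Finset Pool.Agent.R814.Lam

variable {n m k : ℕ}

/-- the embedding `i ↦ (i, a)` -/
def embL (k : ℕ) (a : Fin k) : Fin n ↪ Fin (n * k) :=
  ⟨fun i => finProdFinEquiv (i, a), fun i i' h => by
    have := finProdFinEquiv.injective h
    exact (Prod.mk.inj this).1⟩

/-- the embedding `a ↦ (i, a)` -/
def embR (k : ℕ) (i : Fin n) : Fin k ↪ Fin (n * k) :=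
  ⟨fun a => finProdFinEquiv (i, a), fun a a' h => by
    have := finProdFinEquiv.injective h
    exact (Prod.mk.inj this).2⟩

theorem embL_apply (a : Fin k) (i : Fin n) : embL k a i = finProdFinEquiv (i, a) := rfl

theorem embR_apply (i : Fin n) (a : Fin k) : embR k i a = finProdFinEquiv (i, a) := rfl

/-- the sets `S_j × {a}` -/
def prodSets (k : ℕ) (S : Fin m → Finset (Fin n)) (r : Fin (m * k)) : Finset (Fin (n * k)) :=
  (S (finProdFinEquiv.symm r).1).map (embL k (finProdFinEquiv.symm r).2)

/-- the sets `{i} × [k]` -/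
def rowSets (n k : ℕ) : Set (Finset (Fin (n * k))) := {T | ∃ i : Fin n, T = univ.map (embR k i)}

theorem rowSets_laminar : Laminar (rowSets n k) := by
  rintro S ⟨i, rfl⟩ T ⟨i', rfl⟩
  by_cases h : i = i'
  · subst h
    exact Or.inl subset_rfl
  · right; right
    rw [Finset.disjoint_left]
    intro v hv hv'
    rw [Finset.mem_map] at hv hv'
    obtain ⟨a, _, rfl⟩ := hv
    obtain ⟨a', _, h2⟩ := hv'
    have := finProdFinEquiv.injective h2
    exact h (Prod.mk.inj this).1.symm

theorem mem_prodSets (S : Fin m → Finset (Fin n)) (r : Fin (m * k)) (v : Fin (n * k)) :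
    v ∈ prodSets k S r ↔ (finProdFinEquiv.symm v).1 ∈ S (finProdFinEquiv.symm r).1 ∧
      (finProdFinEquiv.symm v).2 = (finProdFinEquiv.symm r).2 := by
  unfold prodSets
  rw [Finset.mem_map]
  constructor
  · rintro ⟨i, hi, rfl⟩
    rw [embL_apply, Equiv.symm_apply_apply]
    exact ⟨hi, rfl⟩
  · rintro ⟨h1, h2⟩
    refine ⟨_, h1, ?_⟩
    rw [embL_apply, ← h2]
    exact finProdFinEquiv.apply_symm_apply v

theorem prodSets_degree (S : Fin m → Finset (Fin n)) (v : Fin (n * k)) :
    (univ.filter (fun r => v ∈ prodSets k S r)).card ≤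
      (univ.filter (fun j => (finProdFinEquiv.symm v).1 ∈ S j)).card := by
  apply Finset.card_le_card_of_injOn (fun r => (finProdFinEquiv.symm r).1)
  · intro r hr
    have h1 := (Finset.mem_filter.mp hr).2
    rw [mem_prodSets] at h1
    exact Finset.mem_filter.mpr ⟨Finset.mem_univ _, h1.1⟩
  · intro r hr r' hr' heq
    have h1 := (Finset.mem_filter.mp hr).2
    have h2 := (Finset.mem_filter.mp hr').2
    rw [mem_prodSets] at h1 h2
    have h3 : finProdFinEquiv.symm r = finProdFinEquiv.symm r' :=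
      Prod.ext heq (by rw [← h1.2, ← h2.2])
    exact finProdFinEquiv.symm.injective h3

/-- the starting point -/
def x0 (p : Fin n → Fin k → ℝ) (v : Fin (n * k)) : ℝ :=
  p (finProdFinEquiv.symm v).1 (finProdFinEquiv.symm v).2

theorem x0_mk (p : Fin n → Fin k → ℝ) (i : Fin n) (a : Fin k) :
    x0 p (finProdFinEquiv (i, a)) = p i a := by
  unfold x0
  rw [Equiv.symm_apply_apply]

theorem sum_prodSets (S : Fin m → Finset (Fin n)) (j : Fin m) (a : Fin k)
    (f : Fin (n * k) → ℝ) :
    ∑ v ∈ prodSets k S (finProdFinEquiv (j, a)), f v = ∑ i ∈ S j, f (finProdFinEquiv (i, a)) := by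
  unfold prodSets
  rw [Finset.sum_map, Equiv.symm_apply_apply]
  rfl

theorem assign (S : Fin m → Finset (Fin n)) (p : Fin n → Fin k → ℝ)
    (hp1 : ∀ i, ∑ a, p i a = 1) (x : Fin (n * k) → ℝ) (hx : ∀ v, x v = 0 ∨ x v = 1)
    (hx0 : ∀ v, x0 p v = 0 → x v = 0)
    (hL : ∀ T ∈ rowSets n k, |∑ v ∈ T, (x v - x0 p v)| < 1) :
    ∃ c : Fin n → Fin k, (∀ i a, p i a = 0 → c i ≠ a) ∧ ∀ (j : Fin m) (a : Fin k),
      ∑ v ∈ prodSets k S (finProdFinEquiv (j, a)), (x v - x0 p v) =
        (((S j).filter (fun i => c i = a)).card : ℝ) - ∑ i ∈ S j, p i a := by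
  classical
  have hsum : ∀ i, ∑ a, x (finProdFinEquiv (i, a)) = 1 := by
    intro i
    have h1 := hL (univ.map (embR k i)) ⟨i, rfl⟩
    rw [Finset.sum_map] at h1
    simp only [embR_apply, x0_mk] at h1
    rw [Finset.sum_sub_distrib, hp1] at h1
    have hint : ∀ a, ∃ z : ℤ, (z : ℝ) = x (finProdFinEquiv (i, a)) := by
      intro a
      rcases hx (finProdFinEquiv (i, a)) with h | h
      · exact ⟨0, by rw [h]; norm_num⟩
      · exact ⟨1, by rw [h]; norm_num⟩
    choose z hz using hint
    have e : ∑ a, x (finProdFinEquiv (i, a)) = ((∑ a, z a : ℤ) : ℝ) := by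
      push_cast
      exact Finset.sum_congr rfl fun a _ => (hz a).symm
    rw [e] at h1 ⊢
    have h2 := abs_lt.1 h1
    have h3 : (0:ℤ) < ∑ a, z a := by
      have : (0:ℝ) < ((∑ a, z a : ℤ) : ℝ) := by linarith [h2.1]
      exact_mod_cast this
    have h4 : (∑ a, z a : ℤ) < 2 := by
      have : ((∑ a, z a : ℤ) : ℝ) < 2 := by linarith [h2.2]
      exact_mod_cast this
    have h5 : (∑ a, z a : ℤ) = 1 := by omega
    rw [h5]; norm_num
  have hex : ∀ i, ∃ a, x (finProdFinEquiv (i, a)) = 1 := by
    intro i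
    by_contra hcon
    push Not at hcon
    have : ∑ a, x (finProdFinEquiv (i, a)) = 0 := Finset.sum_eq_zero fun a _ => by
      rcases hx (finProdFinEquiv (i, a)) with h | h
      · exact h
      · exact absurd h (hcon a)
    rw [hsum] at this
    norm_num at this
  choose c hc using hex
  have hxc : ∀ i a, x (finProdFinEquiv (i, a)) = if c i = a then 1 else 0 := by
    intro i a
    split_ifs with h
    · rw [← h]; exact hc i
    · rcases hx (finProdFinEquiv (i, a)) with h1 | h1
      · exact h1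
      · exfalso
        have h2 : x (finProdFinEquiv (i, c i)) + x (finProdFinEquiv (i, a)) ≤
            ∑ b, x (finProdFinEquiv (i, b)) := by
          have h3 : ∑ b ∈ ({c i, a} : Finset (Fin k)), x (finProdFinEquiv (i, b)) ≤
              ∑ b, x (finProdFinEquiv (i, b)) := by
            apply Finset.sum_le_sum_of_subset_of_nonneg (Finset.subset_univ _)
            intro b _ _
            rcases hx (finProdFinEquiv (i, b)) with h | h <;> rw [h]
            norm_num
          rwa [Finset.sum_pair h] at h3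
        rw [hsum, hc, h1] at h2
        norm_num at h2
  refine ⟨c, ?_, ?_⟩
  · intro i a hp hca
    have h1 := hx0 (finProdFinEquiv (i, a)) (by rw [x0_mk]; exact hp)
    rw [hxc, if_pos hca] at h1
    norm_num at h1
  · intro j a
    rw [sum_prodSets, Finset.sum_sub_distrib]
    simp only [hxc, x0_mk]
    rw [← Finset.sum_filter, Finset.sum_const, nsmul_eq_mul, mul_one]

end Pool.Agent.J4.H92.BF
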