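import Pool.Agent.J4.H92.BF.Multi

/-!
# Equitable splitting into `k` classes: matrices and set systems
-/

set_option autoImplicit false

namespace Pool.Agent.J4.H92.BF

open Finset Pool.Agent.R814.Lam Pool.Agent.H320R2.LD Pool.Agent.R959.LD2 Pool.Agent.R959.LD3

theorem equal_matrix (κ : ℝ) (hκ : 0 < κ) (h : St_MAIN3 1 κ) :
    ∃ C : ℝ, 0 < C ∧ ∀ (n : ℕ) (W : Type) [Fintype W] (K : ℕ) (t : ℝ) (A : W → Fin n → ℝ)
      (L : Set (Finset (Fin n))) (k : ℕ), Laminar L → 1 ≤ t → (∀ i j, |A i j| ≤ 1) →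
      (∀ j, ∑ i, |A i j| ≤ t) →
      (∀ i, (supp (A i)).card ≤ K) → (∀ j, (supp (fun i => A i j)).card ≤ K) → 0 < k →
      ∃ c : Fin n → Fin k,
        (∀ T ∈ L, ∀ a, |((T.filter (fun j => c j = a)).card : ℝ) - T.card / k| < 1) ∧
        ∀ i a, |∑ j ∈ univ.filter (fun j => c j = a), A i j - 1 / k * ∑ j, A i j| ≤
          C * Real.sqrt (t + (Real.log K) ^ (1 / κ) + (∑ j, |A i j|) / k) := by
  classical
  obtain ⟨C, hC, hc⟩ := split_step κ hκ h
  refine ⟨15 * C + 120 * C ^ 2, by positivity, fun n W _ K t A L k hL ht h1 h2 h3 h4 hk => ?_⟩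
  have hΛ : 0 ≤ (Real.log K) ^ (1 / κ) := Real.rpow_nonneg (Real.log_natCast_nonneg K) _
  obtain ⟨c, hc1, hcL, hcA⟩ := recursion (L := L) A C (t + (Real.log K) ^ (1 / κ)) hC.le
    (by linarith) (fun U k1 k2 hk1 hk2 => hc n W K t A L hL ht h1 h2 h3 h4 U k1 k2 hk1 hk2)
    k hk univ
  have hcc : ∀ j, c j < k := fun j => hc1 j (Finset.mem_univ j)
  have hkr : (0:ℝ) < k := by exact_mod_cast hk
  have hfil : ∀ (T : Finset (Fin n)) (a : Fin k),
      T.filter (fun j => (⟨c j, hcc j⟩ : Fin k) = a) = T.filter (fun j => c j = a) := by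
    intro T a
    ext j
    simp only [Finset.mem_filter, Fin.ext_iff]
  refine ⟨fun j => ⟨c j, hcc j⟩, fun T hT a => ?_, fun i a => ?_⟩
  · rw [hfil]
    have h5 := hcL T hT (T.card / k) ((T.card + (k - 1)) / k)
      (by rw [Finset.inter_univ]; exact Nat.mul_div_le _ _) (by
        rw [Finset.inter_univ]
        have e1 := Nat.div_add_mod (T.card + (k - 1)) k
        have e2 := Nat.mod_lt (T.card + (k - 1)) hk
        generalize k * ((T.card + (k - 1)) / k) = z at *
        omega) a a.2
    rw [Finset.inter_univ] at h5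
    set s := (T.filter (fun j => c j = (a:ℕ))).card with hs
    have e1 := Nat.div_add_mod (T.card + (k - 1)) k
    have e3 := Nat.div_add_mod T.card k
    have e4 := Nat.mod_lt T.card hk
    have h6 : T.card < k * s + k := by
      have := Nat.mul_le_mul_left k h5.1
      generalize k * (T.card / k) = z at *
      omega
    have h7 : k * s < T.card + k := by
      have := Nat.mul_le_mul_left k h5.2
      generalize k * ((T.card + (k - 1)) / k) = z at *
      omega
    have h6r : (T.card : ℝ) < k * s + k := by exact_mod_cast h6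
    have h7r : (k:ℝ) * s < T.card + k := by exact_mod_cast h7
    rw [abs_lt]
    constructor
    · rw [lt_sub_iff_add_lt, neg_add_eq_sub, sub_lt_iff_lt_add, div_lt_iff₀ hkr]
      linarith
    · rw [sub_lt_iff_lt_add, ← sub_lt_iff_lt_add', lt_div_iff₀ hkr]
      linarith
  · rw [hfil]
    have h5 := hcA i a a.2
    refine h5.trans ?_
    unfold bd
    have e : cnt (A i) univ = ∑ j, |A i j| := rfl
    rw [e]
    set Φ : ℝ := Real.sqrt (t + (Real.log K) ^ (1 / κ) + (∑ j, |A i j|) / k) with hΦ
    have hs0 : 0 ≤ ∑ j, |A i j| := Finset.sum_nonneg fun _ _ => abs_nonneg _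
    have hΦ1 : 1 ≤ Φ := by
      rw [hΦ]
      apply Real.one_le_sqrt.2
      have : 0 ≤ (∑ j, |A i j|) / k := by positivity
      linarith
    have hg : 0 ≤ 1 / Real.sqrt (k:ℝ) := by positivity
    calc (15 * C * Φ + 120 * C ^ 2) * (1 - 1 / Real.sqrt k)
        ≤ (15 * C * Φ + 120 * C ^ 2) * 1 :=
          mul_le_mul_of_nonneg_left (by linarith) (by positivity)
      _ ≤ (15 * C + 120 * C ^ 2) * Φ := by
          have : 0 ≤ 120 * C ^ 2 * (Φ - 1) := mul_nonneg (by positivity) (by linarith)
          nlinarith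

theorem equal_sets (κ : ℝ) (hκ : 0 < κ) (h : St_MAIN3 1 κ) :
    ∃ C : ℝ, 0 < C ∧ ∀ (n m t k : ℕ) (S : Fin m → Finset (Fin n)) (L : Set (Finset (Fin n))),
      1 ≤ t → 1 ≤ k → (∀ i : Fin n, (univ.filter (fun j : Fin m => i ∈ S j)).card ≤ t) →
      Laminar L →
      ∃ c : Fin n → Fin k,
        (∀ T ∈ L, ∀ a, |((T.filter (fun i => c i = a)).card : ℝ) - T.card / k| < 1) ∧
        ∀ (j : Fin m) (a : Fin k),
          |(((S j).filter (fun i => c i = a)).card : ℝ) - (S j).card / k| ≤
          C * (Real.sqrt t + Real.sqrt ((S j).card / k) +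
            (S j).card * Real.exp (-((t : ℝ) ^ κ))) := by
  classical
  obtain ⟨C, hC, hc⟩ := equal_matrix κ hκ h
  obtain ⟨c2, hc20, hlen⟩ := exists_length κ hκ
  set C1 : ℝ := C * Real.sqrt (1 + c2) + C with hC1
  set C2 : ℝ := 2 * C * Real.sqrt (2 + c2) with hC2
  refine ⟨C1 + C2, by positivity, fun n m t q S L ht hq hdeg hL => ?_⟩
  have htr : (1 : ℝ) ≤ t := by exact_mod_cast ht
  have ht0 : (0 : ℝ) < t := by linarith
  have hqr : (1 : ℝ) ≤ q := by exact_mod_cast hq
  have hq0 : (0 : ℝ) < q := by linarith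
  obtain ⟨k, hk0, htk, hexp, hΛ⟩ := hlen t htr
  have hk0r : (0 : ℝ) < k := by exact_mod_cast hk0
  set T : ℝ := (t : ℝ) ^ κ with hT
  set A : Fin m × Fin (n + 1) → Fin n → ℝ := fun w i =>
    if i ∈ piece (S w.1) k w.2 then 1 else 0 with hA
  have hA1 : ∀ w i, |A w i| = if i ∈ piece (S w.1) k w.2 then 1 else 0 := by
    intro w i
    simp only [hA]
    split_ifs <;> simp
  have hcol : ∀ i : Fin n,
      (univ.filter (fun w : Fin m × Fin (n + 1) => i ∈ piece (S w.1) k w.2)).card ≤ t := by
    intro i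
    refine le_trans ?_ (hdeg i)
    apply Finset.card_le_card_of_injOn (fun w => w.1)
    · intro w hw
      have h1 := (Finset.mem_filter.mp hw).2
      simp only [piece, Finset.mem_filter] at h1
      exact Finset.mem_filter.mpr ⟨Finset.mem_univ _, h1.1⟩
    · intro w hw w' hw' heq
      have h1 := (Finset.mem_filter.mp hw).2
      have h2 := (Finset.mem_filter.mp hw').2
      simp only [piece, Finset.mem_filter] at h1 h2
      simp only at heq
      refine Prod.ext heq (Fin.ext ?_)
      rw [← h1.2, ← h2.2, heq]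
  obtain ⟨c, hcL, hcb⟩ := hc n (Fin m × Fin (n + 1)) k t A L q hL htr (by
    intro w i
    rw [hA1]
    split_ifs <;> norm_num) (by
    intro i
    simp only [hA1]
    rw [← Finset.sum_filter, Finset.sum_const, nsmul_eq_mul, mul_one]
    exact_mod_cast hcol i) (by
    intro w
    have e : supp (A w) ⊆ piece (S w.1) k w.2 := by
      intro i hi
      rw [mem_supp] at hi
      simp only [hA] at hi
      by_contra hcon
      exact hi (if_neg hcon)
    exact (Finset.card_le_card e).trans (piece_card _ _ _ hk0)) (by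
    intro i
    have e : supp (fun w => A w i) ⊆
        univ.filter (fun w : Fin m × Fin (n + 1) => i ∈ piece (S w.1) k w.2) := by
      intro w hw
      rw [mem_supp] at hw
      simp only [hA] at hw
      rw [Finset.mem_filter]
      refine ⟨Finset.mem_univ _, ?_⟩
      by_contra hcon
      exact hw (if_neg hcon)
    refine (Finset.card_le_card e).trans ((hcol i).trans ?_)
    exact_mod_cast htk) (by omega)
  refine ⟨c, hcL, fun j a => ?_⟩
  have hcardn : (S j).card ≤ n := by
    simpa using Finset.card_le_univ (S j)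
  -- the errors as sums
  set f : Fin n → ℝ := fun i => (if c i = a then 1 else 0) - 1 / q with hf
  have hsumf : ∀ P : Finset (Fin n), ∑ i ∈ P, f i =
      ((P.filter (fun i => c i = a)).card : ℝ) - P.card / q := by
    intro P
    simp only [hf]
    rw [Finset.sum_sub_distrib, ← Finset.sum_filter, Finset.sum_const, Finset.sum_const,
      nsmul_eq_mul, nsmul_eq_mul, mul_one, mul_one_div]
  have hpc : ∀ p ∈ Finset.range ((S j).card / k + 1),
      |∑ i ∈ piece (S j) k p, f i| ≤
        C * Real.sqrt ((t : ℝ) + (Real.log k) ^ (1 / κ) + ((piece (S j) k p).card : ℝ) / q) := by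
    intro p hp
    have hpn : p < n + 1 := by
      rw [Finset.mem_range] at hp
      have := Nat.div_le_self (S j).card k
      omega
    have h1 := hcb (j, ⟨p, hpn⟩) a
    have e1 : ∑ i, |A (j, ⟨p, hpn⟩) i| = ((piece (S j) k p).card : ℝ) := by
      simp only [hA1]
      rw [← Finset.sum_filter, Finset.sum_const, nsmul_eq_mul, mul_one]
      congr 2
      ext i
      simp
    have e2 : ∑ i, A (j, ⟨p, hpn⟩) i = ((piece (S j) k p).card : ℝ) := by
      rw [← e1]
      refine Finset.sum_congr rfl fun i _ => ?_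
      rw [hA1]
    have e3 : ∑ i ∈ univ.filter (fun i => c i = a), A (j, ⟨p, hpn⟩) i =
        (((piece (S j) k p).filter (fun i => c i = a)).card : ℝ) := by
      simp only [hA]
      rw [← Finset.sum_filter, Finset.sum_const, nsmul_eq_mul, mul_one]
      congr 2
      ext i
      simp only [Finset.mem_filter, Finset.mem_univ, true_and]
      tauto
    rw [e1, e2, e3] at h1
    rw [hsumf]
    refine le_trans (le_of_eq ?_) h1
    congr 1
    ring
  have hs0 : (0 : ℝ) ≤ ((S j).card : ℝ) := Nat.cast_nonneg _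
  have hv0 : 0 ≤ ((S j).card : ℝ) / q := by positivity
  have hsq1 : 0 ≤ Real.sqrt t := Real.sqrt_nonneg _
  have hsq2 : 0 ≤ Real.sqrt (((S j).card : ℝ) / q) := Real.sqrt_nonneg _
  have hex : 0 ≤ ((S j).card : ℝ) * Real.exp (-T) := by positivity
  have hC10 : 0 ≤ C1 := by positivity
  have hC20 : 0 ≤ C2 := by positivity
  rw [← hsumf]
  rcases le_or_gt (S j).card k with hcase | hcase
  · -- one piece
    have h1 := hpc 0 (Finset.mem_range.mpr (Nat.succ_pos _))
    rw [piece_small _ _ hcase] at h1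
    refine h1.trans ?_
    have h2 : Real.sqrt ((t : ℝ) + (Real.log k) ^ (1 / κ) + ((S j).card : ℝ) / q) ≤
        Real.sqrt (1 + c2) * Real.sqrt t + Real.sqrt (((S j).card : ℝ) / q) := by
      rw [← Real.sqrt_mul (by positivity)]
      refine le_trans (Real.sqrt_le_sqrt ?_) (sqrt_add_le _ _ (by positivity) hv0)
      nlinarith
    calc C * Real.sqrt ((t : ℝ) + (Real.log k) ^ (1 / κ) + ((S j).card : ℝ) / q)
        ≤ C * (Real.sqrt (1 + c2) * Real.sqrt t + Real.sqrt (((S j).card : ℝ) / q)) :=
          mul_le_mul_of_nonneg_left h2 hC.le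
      _ ≤ C1 * (Real.sqrt t + Real.sqrt (((S j).card : ℝ) / q)) := by
          rw [hC1]
          have h5 : 0 ≤ C * Real.sqrt (1 + c2) * Real.sqrt (((S j).card : ℝ) / q) := by
            positivity
          have h6 : 0 ≤ C * Real.sqrt t := by positivity
          nlinarith
      _ ≤ (C1 + C2) * (Real.sqrt t + Real.sqrt (((S j).card : ℝ) / q) +
            ((S j).card : ℝ) * Real.exp (-T)) := by
          apply mul_le_mul (by linarith) (by linarith) (by positivity) (by positivity)
  · -- many pieces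
    have hcr : (k : ℝ) ≤ ((S j).card : ℝ) := by exact_mod_cast hcase.le
    have h1 : |∑ i ∈ S j, f i| ≤
        ∑ p ∈ Finset.range ((S j).card / k + 1), |∑ i ∈ piece (S j) k p, f i| := by
      rw [sum_piece_real (S j) k]
      exact Finset.abs_sum_le_sum_abs _ _
    have h2 : ∀ p ∈ Finset.range ((S j).card / k + 1),
        |∑ i ∈ piece (S j) k p, f i| ≤ C * (Real.sqrt (2 + c2) * Real.sqrt k) := by
      intro p hp
      refine (hpc p hp).trans (mul_le_mul_of_nonneg_left ?_ hC.le)
      rw [← Real.sqrt_mul (by positivity)]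
      refine Real.sqrt_le_sqrt ?_
      have h3 : ((piece (S j) k p).card : ℝ) ≤ k := by exact_mod_cast piece_card _ _ _ hk0
      have h4 : ((piece (S j) k p).card : ℝ) / q ≤ ((piece (S j) k p).card : ℝ) :=
        div_le_self (Nat.cast_nonneg _) hqr
      nlinarith
    have h3 := Finset.sum_le_sum h2
    rw [Finset.sum_const, Finset.card_range, nsmul_eq_mul] at h3
    have h4 : (((S j).card / k + 1 : ℕ) : ℝ) ≤ 2 * (((S j).card : ℝ) / k) := by
      push_cast
      have h5 : (((S j).card / k : ℕ) : ℝ) ≤ ((S j).card : ℝ) / k := Nat.cast_div_le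
      have h6 : 1 ≤ ((S j).card : ℝ) / k := by rw [le_div_iff₀ hk0r]; linarith
      linarith
    have h5 : Real.sqrt k / k ≤ Real.exp (-T) := by
      have e1 : Real.sqrt k * Real.sqrt k = k := Real.mul_self_sqrt hk0r.le
      rw [div_le_iff₀ hk0r]
      calc Real.sqrt k = Real.exp (-T) * Real.exp T * Real.sqrt k := by
            rw [← Real.exp_add, neg_add_cancel, Real.exp_zero, one_mul]
        _ ≤ Real.exp (-T) * Real.sqrt k * Real.sqrt k := by gcongr
        _ = Real.exp (-T) * k := by rw [mul_assoc, e1]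
    calc |∑ i ∈ S j, f i|
        ≤ (((S j).card / k + 1 : ℕ) : ℝ) * (C * (Real.sqrt (2 + c2) * Real.sqrt k)) := h1.trans h3
      _ ≤ 2 * (((S j).card : ℝ) / k) * (C * (Real.sqrt (2 + c2) * Real.sqrt k)) :=
          mul_le_mul_of_nonneg_right h4 (by positivity)
      _ = C2 * (((S j).card : ℝ) * (Real.sqrt k / k)) := by rw [hC2]; ring
      _ ≤ C2 * (((S j).card : ℝ) * Real.exp (-T)) := by gcongr
      _ ≤ (C1 + C2) * (Real.sqrt t + Real.sqrt (((S j).card : ℝ) / q) +
            ((S j).card : ℝ) * Real.exp (-T)) := by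
          apply mul_le_mul (by linarith) (by linarith) hex (by positivity)

end Pool.Agent.J4.H92.BF
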