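import Pool.Agent.J4.H92.BF.Sets

/-!
# Only the fractional coordinates matter
-/

set_option autoImplicit false

namespace Pool.Agent.J4.H92.BF

open Finset Pool.Agent.R814.Lam Pool.Agent.H320R2.LD Pool.Agent.R959.LD2 Pool.Agent.R959.LD3

theorem laminar_insert_singletons {n : ℕ} {L : Set (Finset (Fin n))} (hL : Laminar L) :
    Laminar (L ∪ {T | ∃ i, T = {i}}) := by
  have aux : ∀ (T : Finset (Fin n)) (i : Fin n), ({i} : Finset (Fin n)) ⊆ T ∨
      Disjoint ({i} : Finset (Fin n)) T := by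
    intro T i
    by_cases h : i ∈ T
    · left; simpa using h
    · right; simpa using h
  rintro S (hS | ⟨i, rfl⟩) T (hT | ⟨j, rfl⟩)
  · exact hL S hS T hT
  · rcases aux S j with h | h
    · exact Or.inr (Or.inl h)
    · exact Or.inr (Or.inr h.symm)
  · rcases aux T i with h | h
    · exact Or.inl h
    · exact Or.inr (Or.inr h)
  · rcases aux {j} i with h | h
    · exact Or.inl h
    · exact Or.inr (Or.inr h)

open Classical in
theorem round_frac (κ : ℝ) (hκ : 0 < κ) (h : St_MAIN3 1 κ) :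
    ∃ C : ℝ, 0 < C ∧ ∀ (n m t : ℕ) (S : Fin m → Finset (Fin n)) (L : Set (Finset (Fin n)))
      (x₀ : Fin n → ℝ), 1 ≤ t →
      (∀ i : Fin n, 0 < x₀ i → x₀ i < 1 → (univ.filter (fun j : Fin m => i ∈ S j)).card ≤ t) →
      Laminar L → (∀ i, 0 ≤ x₀ i ∧ x₀ i ≤ 1) →
      ∃ x : Fin n → ℤ, (∀ i, x i = 0 ∨ x i = 1) ∧ (∀ i, x₀ i = 0 → x i = 0) ∧
        (∀ i, x₀ i = 1 → x i = 1) ∧
        (∀ T ∈ L, |∑ i ∈ T, ((x i : ℝ) - x₀ i)| < 1) ∧
        ∀ j : Fin m, |∑ i ∈ S j, ((x i : ℝ) - x₀ i)| ≤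
          C * (Real.sqrt t + Real.sqrt (∑ i ∈ S j, x₀ i * (1 - x₀ i)) +
            ((S j).filter (fun i => 0 < x₀ i ∧ x₀ i < 1)).card * Real.exp (-((t : ℝ) ^ κ))) := by
  obtain ⟨C, hC, hc⟩ := round_sets κ hκ h
  refine ⟨C, hC, fun n m t S L x₀ ht hdeg hL hx => ?_⟩
  set S' : Fin m → Finset (Fin n) := fun j => (S j).filter (fun i => 0 < x₀ i ∧ x₀ i < 1) with hS'
  obtain ⟨x, hx1, hxL, hxb⟩ := hc n m t S' (L ∪ {T | ∃ i, T = {i}}) x₀ ht (by
    intro i
    by_cases hi : 0 < x₀ i ∧ x₀ i < 1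
    · refine le_trans (Finset.card_le_card ?_) (hdeg i hi.1 hi.2)
      intro j hj
      rw [Finset.mem_filter] at hj ⊢
      exact ⟨hj.1, (Finset.mem_filter.1 hj.2).1⟩
    · have : (univ.filter (fun j : Fin m => i ∈ S' j)) = ∅ := by
        ext j
        simp only [hS', Finset.mem_filter, Finset.mem_univ, true_and, Finset.notMem_empty,
          iff_false, not_and]
        intro _ h1 h2
        exact hi ⟨h1, h2⟩
      rw [this]; simp) (laminar_insert_singletons hL) hx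
  have hsing : ∀ i, |(x i : ℝ) - x₀ i| < 1 := by
    intro i
    have := hxL {i} (Or.inr ⟨i, rfl⟩)
    simpa using this
  have h0 : ∀ i, x₀ i = 0 → x i = 0 := by
    intro i hi
    rcases hx1 i with h1 | h1
    · exact h1
    · have := hsing i
      rw [h1, hi] at this
      norm_num at this
  have h1 : ∀ i, x₀ i = 1 → x i = 1 := by
    intro i hi
    rcases hx1 i with h1 | h1
    · have := hsing i
      rw [h1, hi] at this
      norm_num at this
    · exact h1
  refine ⟨x, hx1, h0, h1, fun T hT => hxL T (Or.inl hT), fun j => ?_⟩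
  have hint : ∀ i, ¬ (0 < x₀ i ∧ x₀ i < 1) → x₀ i = 0 ∨ x₀ i = 1 := by
    intro i hi
    by_contra hcon
    push Not at hcon
    exact hi ⟨lt_of_le_of_ne (hx i).1 (Ne.symm hcon.1), lt_of_le_of_ne (hx i).2 hcon.2⟩
  have e1 : ∑ i ∈ S j, ((x i : ℝ) - x₀ i) = ∑ i ∈ S' j, ((x i : ℝ) - x₀ i) := by
    rw [hS', Finset.sum_filter]
    refine Finset.sum_congr rfl fun i _ => ?_
    split_ifs with hi
    · rfl
    · rcases hint i hi with h2 | h2
      · rw [h2, h0 i h2]; simp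
      · rw [h2, h1 i h2]; simp
  have e2 : ∑ i ∈ S j, x₀ i * (1 - x₀ i) = ∑ i ∈ S' j, x₀ i * (1 - x₀ i) := by
    rw [hS', Finset.sum_filter]
    refine Finset.sum_congr rfl fun i _ => ?_
    split_ifs with hi
    · rfl
    · rcases hint i hi with h2 | h2
      · rw [h2]; simp
      · rw [h2]; simp
  rw [e1, e2]
  exact hxb j

end Pool.Agent.J4.H92.BF
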