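import Pool.Agent.R814.Lam.Basic

/-!
# Rounding digit by digit, with control of the variance
-/

set_option autoImplicit false

namespace Pool.Agent.J4.H92.BF

open Finset Pool.Agent.R814.Lam

/-- `∑ |f j| x j (1 - x j)` -/
noncomputable def vr {n : ℕ} (f : Fin n → ℝ) (x : Fin n → ℝ) : ℝ := ∑ j, |f j| * (x j * (1 - x j))

theorem vr_nonneg {n : ℕ} (f : Fin n → ℝ) (x : Fin n → ℝ) (hx : ∀ j, 0 ≤ x j ∧ x j ≤ 1) :
    0 ≤ vr f x :=
  Finset.sum_nonneg fun j _ => mul_nonneg (abs_nonneg _)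
    (mul_nonneg (hx j).1 (by linarith [(hx j).2]))

/-- the hypothesis of one step -/
def Step {n : ℕ} {W : Type} (L : Set (Finset (Fin n))) (A : W → Fin n → ℝ) (c τ : ℝ) : Prop :=
  ∀ β : Fin n → ℝ, (∀ j, |β j| ≤ 1) → ∀ O : Finset (Fin n),
    ∃ s : Fin n → ℤ, (∀ j, s j = 1 ∨ s j = -1) ∧ (∀ S ∈ L, |∑ j ∈ S ∩ O, s j| ≤ 1) ∧
      ∀ i, |∑ j ∈ O, A i j * (s j : ℝ)| ≤ c * Real.sqrt (τ + ∑ j ∈ O, |A i j|) ∧
        |∑ j ∈ O, |A i j| * β j * (s j : ℝ)| ≤ c * Real.sqrt (τ + ∑ j ∈ O, |A i j|)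

theorem key (l : ℕ) (τ N V : ℝ) (hτ : 0 ≤ τ) (hV : 0 ≤ V) (hN0 : 0 ≤ N)
    (hN : N ≤ 2 ^ (l + 1) * V) :
    1 / 2 ^ l * Real.sqrt (τ + N) ≤ 3 / 2 * (3 / 4) ^ l * Real.sqrt (τ + V) := by
  have ha : (0:ℝ) < 2 ^ l := by positivity
  have ha1 : (1:ℝ) ≤ 2 ^ l := one_le_pow₀ (by norm_num)
  have hb : (1:ℝ) / 2 ^ l ≤ (9 / 16) ^ l := by
    rw [one_div, ← inv_pow]
    exact pow_le_pow_left₀ (by norm_num) (by norm_num) l
  rw [← pow_le_pow_iff_left₀ (by positivity) (by positivity) two_ne_zero, mul_pow, mul_pow,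
    mul_pow, Real.sq_sqrt (by positivity), Real.sq_sqrt (by positivity)]
  have e1 : ((3 / 4 : ℝ) ^ l) ^ 2 = (9 / 16) ^ l := by
    rw [← pow_mul, mul_comm, pow_mul]
    norm_num
  rw [e1]
  have e2 : (1 / (2:ℝ) ^ l) ^ 2 * (τ + N) ≤ 2 * (1 / 2 ^ l) * (τ + V) := by
    have h1 : (1 / (2:ℝ) ^ l) ^ 2 * (τ + N) ≤ (1 / (2:ℝ) ^ l) ^ 2 * (τ + 2 ^ (l + 1) * V) := by
      apply mul_le_mul_of_nonneg_left _ (by positivity)
      linarith
    refine h1.trans ?_
    have h2 : (1 / (2:ℝ) ^ l) ^ 2 * (τ + 2 ^ (l + 1) * V) =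
        (1 / (2:ℝ) ^ l) * ((1 / (2:ℝ) ^ l) * τ + 2 * V) := by
      rw [pow_succ]
      field_simp
      ring
    have h3 : (1 / (2:ℝ) ^ l) * τ ≤ 2 * τ := by
      have : (1 / (2:ℝ) ^ l) ≤ 1 := by
        rw [div_le_one ha]; exact ha1
      nlinarith
    rw [h2]
    have h4 : (1 / (2:ℝ) ^ l) * ((1 / (2:ℝ) ^ l) * τ + 2 * V) ≤
        (1 / (2:ℝ) ^ l) * (2 * τ + 2 * V) := by
      apply mul_le_mul_of_nonneg_left _ (by positivity)
      linarith
    refine h4.trans (le_of_eq ?_)
    ring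
  refine e2.trans ?_
  have h5 : 0 ≤ τ + V := by linarith
  have h6 : (1 / (2:ℝ) ^ l) * (τ + V) ≤ (9 / 16) ^ l * (τ + V) :=
    mul_le_mul_of_nonneg_right hb h5
  have h7 : 0 ≤ ((9:ℝ) / 16) ^ l * (τ + V) := by positivity
  nlinarith

theorem iterate {n : ℕ} {W : Type} {L : Set (Finset (Fin n))} (A : W → Fin n → ℝ) (c τ : ℝ)
    (hc : 0 ≤ c) (hτ : 0 ≤ τ) (hs : Step L A c τ) :
    ∀ (l : ℕ) (z : Fin n → ℤ), (∀ j, 0 ≤ z j ∧ z j ≤ 2 ^ l) →
      ∃ x : Fin n → ℤ, (∀ j, x j = 0 ∨ x j = 1) ∧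
        (∀ S ∈ L, |∑ j ∈ S, (2 ^ l * x j - z j)| ≤ 2 ^ l - 1) ∧
        ∀ i, |∑ j, A i j * ((x j : ℝ) - (z j : ℝ) / 2 ^ l)| ≤
          (4 * (3 / 2 * c) * Real.sqrt (τ + vr (A i) (fun j => (z j : ℝ) / 2 ^ l)) +
            6 * (3 / 2 * c) ^ 2) * (1 - (3 / 4) ^ l) := by
  intro l
  induction l with
  | zero =>
    intro z hz
    refine ⟨z, fun j => ?_, fun S _ => by simp, fun i => by simp⟩
    have h3 := hz j
    simp only [pow_zero] at h3
    omega
  | succ l ih =>
    intro z hz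
    classical
    set O : Finset (Fin n) := Finset.univ.filter (fun j => z j % 2 = 1) with hO
    set X : Fin n → ℝ := fun j => (z j : ℝ) / 2 ^ (l + 1) with hX
    have hp : (0:ℝ) < 2 ^ (l + 1) := by positivity
    have hX01 : ∀ j, 0 ≤ X j ∧ X j ≤ 1 := by
      intro j
      have h1 := hz j
      have h2 : (0:ℝ) ≤ z j := by exact_mod_cast h1.1
      have h3 : (z j : ℝ) ≤ 2 ^ (l + 1) := by exact_mod_cast h1.2
      simp only [hX]
      exact ⟨by positivity, by rw [div_le_one hp]; exact h3⟩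
    obtain ⟨s, hs1, hsL, hsb⟩ := hs (fun j => 1 - 2 * X j) (fun j => by
      have := hX01 j
      rw [abs_le]
      constructor <;> linarith) O
    have key1 : ∀ j, ∃ y : ℤ, 2 * y - z j = if j ∈ O then s j else 0 := by
      intro j
      by_cases hj : j ∈ O
      · have h3 : z j % 2 = 1 := by simpa [hO] using hj
        rw [if_pos hj]
        rcases hs1 j with h4 | h4
        · exact ⟨(z j + 1) / 2, by omega⟩
        · exact ⟨(z j - 1) / 2, by omega⟩
      · have h3 : z j % 2 ≠ 1 := by simpa [hO] using hj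
        rw [if_neg hj]
        exact ⟨z j / 2, by omega⟩
    choose y hy using key1
    have hyb : ∀ j, 0 ≤ y j ∧ y j ≤ 2 ^ l := by
      intro j
      have h3 := hy j
      have h4 := hz j
      rw [pow_succ] at h4
      split_ifs at h3
      · rcases hs1 j with h5 | h5 <;> constructor <;> omega
      · constructor <;> omega
    obtain ⟨x, hx, hxL, hxb⟩ := ih y hyb
    refine ⟨x, hx, ?_, ?_⟩
    · intro S hS
      have e : ∑ j ∈ S, (2 ^ (l + 1) * x j - z j) =
          2 * ∑ j ∈ S, (2 ^ l * x j - y j) + ∑ j ∈ S, (2 * y j - z j) := by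
        rw [Finset.mul_sum, ← Finset.sum_add_distrib]
        refine Finset.sum_congr rfl fun j _ => ?_
        rw [pow_succ]; ring
      have e2 : ∑ j ∈ S, (2 * y j - z j) = ∑ j ∈ S ∩ O, s j := by
        rw [← Finset.filter_mem_eq_inter, Finset.sum_filter]
        exact Finset.sum_congr rfl fun j _ => hy j
      rw [e, e2]
      refine (abs_add_le _ _).trans ?_
      rw [abs_mul, abs_two]
      have h3 := hxL S hS
      have h4 := hsL S hS
      rw [pow_succ]
      linarith
    · intro i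
      set Y : Fin n → ℝ := fun j => (y j : ℝ) / 2 ^ l with hY
      set V : ℝ := vr (A i) X with hV
      set V' : ℝ := vr (A i) Y with hV'
      set N : ℝ := ∑ j ∈ O, |A i j| with hN
      set h : ℝ := 1 / 2 ^ (l + 1) with hh
      have hh0 : 0 < h := by positivity
      set e : Fin n → ℝ := fun j => if j ∈ O then (s j : ℝ) else 0 with he
      have hYX : ∀ j, Y j = X j + h * e j := by
        intro j
        have h3 : (2:ℝ) * y j - z j = if j ∈ O then (s j : ℝ) else 0 := by
          have h4 : ((2 * y j - z j : ℤ) : ℝ) = ((if j ∈ O then s j else 0 : ℤ) : ℝ) := by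
            rw [hy j]
          push_cast at h4
          rw [h4]
        simp only [hY, hX, hh, he]
        rw [← h3, pow_succ]
        field_simp
        ring
      have hV0 : 0 ≤ V := vr_nonneg _ _ hX01
      have hN0 : 0 ≤ N := Finset.sum_nonneg fun j _ => abs_nonneg _
      have hNV : N ≤ 2 ^ (l + 1 + 1) * V := by
        have h1 : ∀ j ∈ O, |A i j| ≤ 2 ^ (l + 1 + 1) * (|A i j| * (X j * (1 - X j))) := by
          intro j hj
          have h3 : z j % 2 = 1 := by simpa [hO] using hj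
          have h4 := hz j
          have h5 : (1:ℤ) ≤ z j := by omega
          have h6 : z j ≤ 2 ^ (l + 1) - 1 := by
            have : (2:ℤ) ^ (l + 1) = 2 * 2 ^ l := by rw [pow_succ]; ring
            omega
          have h5' : (1:ℝ) ≤ z j := by exact_mod_cast h5
          have h6' : (z j : ℝ) ≤ 2 ^ (l + 1) - 1 := by exact_mod_cast h6
          have h7 : (1:ℝ) ≤ 2 ^ (l + 1 + 1) * (X j * (1 - X j)) := by
            have e1 : (2:ℝ) ^ (l + 1 + 1) * (X j * (1 - X j)) =
                2 * ((z j : ℝ) * (2 ^ (l + 1) - z j)) / 2 ^ (l + 1) := by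
              simp only [hX]
              rw [pow_succ _ (l + 1)]
              field_simp
            rw [e1, le_div_iff₀ hp]
            have h8 : (1:ℝ) ≤ 2 ^ l := one_le_pow₀ (by norm_num)
            have h9 : (2:ℝ) ^ (l + 1) = 2 * 2 ^ l := by rw [pow_succ]; ring
            nlinarith [mul_nonneg (sub_nonneg.2 h5') (sub_nonneg.2 h6')]
          have h8 := abs_nonneg (A i j)
          calc |A i j| = |A i j| * 1 := (mul_one _).symm
            _ ≤ |A i j| * (2 ^ (l + 1 + 1) * (X j * (1 - X j))) :=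
                mul_le_mul_of_nonneg_left h7 h8
            _ = _ := by ring
        calc N ≤ ∑ j ∈ O, 2 ^ (l + 1 + 1) * (|A i j| * (X j * (1 - X j))) :=
              Finset.sum_le_sum h1
          _ = 2 ^ (l + 1 + 1) * ∑ j ∈ O, |A i j| * (X j * (1 - X j)) := by rw [Finset.mul_sum]
          _ ≤ 2 ^ (l + 1 + 1) * V := by
              apply mul_le_mul_of_nonneg_left _ (by positivity)
              rw [hV, vr]
              apply Finset.sum_le_sum_of_subset_of_nonneg (Finset.subset_univ _)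
              intro j _ _
              exact mul_nonneg (abs_nonneg _)
                (mul_nonneg (hX01 j).1 (by linarith [(hX01 j).2]))
      have hkey := key (l + 1) τ N V hτ hV0 hN0 hNV
      set Φ : ℝ := Real.sqrt (τ + V) with hΦ
      have hΦ0 : 0 ≤ Φ := Real.sqrt_nonneg _
      set q : ℝ := (3 / 4) ^ l with hq
      have hq0 : 0 ≤ q := by positivity
      have hq1 : q ≤ 1 := pow_le_one₀ (by norm_num) (by norm_num)
      have hq' : ((3:ℝ) / 4) ^ (l + 1) = 3 / 4 * q := by rw [pow_succ, hq]; ring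
      set d : ℝ := 3 / 2 * c with hd
      have hd0 : 0 ≤ d := by positivity
      have hF : h * (c * Real.sqrt (τ + N)) ≤ d * (3 / 4 * q) * Φ := by
        rw [hq'] at hkey
        have h1 := mul_le_mul_of_nonneg_left hkey hc
        calc h * (c * Real.sqrt (τ + N)) = c * (1 / 2 ^ (l + 1) * Real.sqrt (τ + N)) := by
              rw [hh]; ring
          _ ≤ c * (3 / 2 * (3 / 4 * q) * Φ) := h1
          _ = d * (3 / 4 * q) * Φ := by rw [hd]; ring
      -- the variance
      have hVV : V' ≤ V + d * (3 / 4 * q) * Φ := by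
        have e1 : V' ≤ V + h * ∑ j ∈ O, |A i j| * (1 - 2 * X j) * (s j : ℝ) := by
          have e2 : ∑ j ∈ O, |A i j| * (1 - 2 * X j) * (s j : ℝ) =
              ∑ j, |A i j| * (1 - 2 * X j) * e j := by
            simp only [he, mul_ite, mul_zero]
            rw [← Finset.sum_filter]
            congr 1
            ext j
            simp
          rw [e2, hV, hV', vr, vr, Finset.mul_sum, ← Finset.sum_add_distrib]
          apply Finset.sum_le_sum
          intro j _
          rw [hYX j]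
          have h3 : 0 ≤ |A i j| * (h ^ 2 * e j ^ 2) := by positivity
          nlinarith
        have e3 := (abs_le.1 (hsb i).2).2
        have e4 := mul_le_mul_of_nonneg_left e3 hh0.le
        linarith
      have hΦ' : Real.sqrt (τ + V') ≤ Φ + d / 2 * (3 / 4 * q) := by
        rw [Real.sqrt_le_iff]
        refine ⟨by positivity, ?_⟩
        have e1 : Φ ^ 2 = τ + V := Real.sq_sqrt (by linarith)
        have e2 : 0 ≤ (d / 2 * (3 / 4 * q)) ^ 2 := sq_nonneg _
        nlinarith
      -- the error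
      have herr : ∑ j, A i j * ((x j : ℝ) - X j) =
          ∑ j, A i j * ((x j : ℝ) - Y j) + h * ∑ j ∈ O, A i j * (s j : ℝ) := by
        have e2 : ∑ j ∈ O, A i j * (s j : ℝ) = ∑ j, A i j * e j := by
          simp only [he, mul_ite, mul_zero]
          rw [← Finset.sum_filter]
          congr 1
          ext j
          simp
        rw [e2, Finset.mul_sum, ← Finset.sum_add_distrib]
        refine Finset.sum_congr rfl fun j _ => ?_
        rw [hYX j]
        ring
      show |∑ j, A i j * ((x j : ℝ) - X j)| ≤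
        (4 * d * Φ + 6 * d ^ 2) * (1 - (3 / 4) ^ (l + 1))
      rw [herr, hq']
      refine (abs_add_le _ _).trans ?_
      rw [abs_mul, abs_of_pos hh0]
      have h1 : h * |∑ j ∈ O, A i j * (s j : ℝ)| ≤ d * (3 / 4 * q) * Φ :=
        (mul_le_mul_of_nonneg_left (hsb i).1 hh0.le).trans hF
      have h2 := hxb i
      have h3 : (4 * d * Real.sqrt (τ + V') + 6 * d ^ 2) * (1 - q) ≤
          (4 * d * (Φ + d / 2 * (3 / 4 * q)) + 6 * d ^ 2) * (1 - q) := by
        apply mul_le_mul_of_nonneg_right _ (by linarith)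
        have := mul_le_mul_of_nonneg_left hΦ' (by positivity : 0 ≤ 4 * d)
        linarith
      have h4 : |∑ j, A i j * ((x j : ℝ) - Y j)| ≤
          (4 * d * (Φ + d / 2 * (3 / 4 * q)) + 6 * d ^ 2) * (1 - q) := h2.trans h3
      have h5 : 0 ≤ d * q * Φ := by positivity
      have h6 : 0 ≤ d ^ 2 * q ^ 2 := by positivity
      nlinarith

end Pool.Agent.J4.H92.BF
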