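import Pool.Agent.J4.H92.BF.Sign
import Pool.Agent.J4.H92.BF.Iter
import Pool.Agent.R814.Lam.Real
import Pool.Agent.R959.LD3.Cor5

/-!
# Rounding of arbitrary points with laminar constraints: matrices and set systems
-/

set_option autoImplicit false

namespace Pool.Agent.J4.H92.BF

open Finset Pool.Agent.R814.Lam Pool.Agent.H320R2.LD Pool.Agent.R959.LD2 Pool.Agent.R959.LD3

theorem log_four (k : ℕ) (p : ℝ) (hp : 0 < p) :
    (Real.log (2 * (2 * k) : ℕ)) ^ p ≤ 4 ^ p * (1 + (Real.log k) ^ p) := by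
  have hlk : 0 ≤ Real.log k := Real.log_natCast_nonneg k
  have h0 : 0 ≤ (Real.log k) ^ p := Real.rpow_nonneg hlk _
  rcases Nat.eq_zero_or_pos k with rfl | hk
  · simp only [mul_zero, Nat.cast_zero, Real.log_zero]
    rw [Real.zero_rpow hp.ne']
    positivity
  · have hk0 : (0:ℝ) < k := by exact_mod_cast hk
    have e1 : Real.log (2 * (2 * k) : ℕ) ≤ 2 + Real.log k := by
      push_cast
      rw [show (2:ℝ) * (2 * k) = 4 * k by ring, Real.log_mul (by norm_num) hk0.ne']
      have : Real.log 4 ≤ 2 := by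
        rw [show (4:ℝ) = 2 ^ 2 by norm_num, Real.log_pow]
        have := Real.log_two_lt_d9
        push_cast
        linarith
      linarith
    have e0 : 0 ≤ Real.log (2 * (2 * k) : ℕ) := Real.log_natCast_nonneg _
    have e2 : (Real.log (2 * (2 * k) : ℕ)) ^ p ≤ (2 + Real.log k) ^ p :=
      Real.rpow_le_rpow e0 e1 hp.le
    refine e2.trans ?_
    rcases le_total (Real.log k) 2 with h | h
    · calc (2 + Real.log k) ^ p ≤ (4:ℝ) ^ p := Real.rpow_le_rpow (by linarith) (by linarith) hp.le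
        _ ≤ 4 ^ p * (1 + (Real.log k) ^ p) := by
            have : (0:ℝ) < 4 ^ p := by positivity
            nlinarith
    · calc (2 + Real.log k) ^ p ≤ (4 * Real.log k) ^ p :=
            Real.rpow_le_rpow (by linarith) (by linarith) hp.le
        _ = 4 ^ p * (Real.log k) ^ p := Real.mul_rpow (by norm_num) hlk
        _ ≤ 4 ^ p * (1 + (Real.log k) ^ p) := by
            have : (0:ℝ) < 4 ^ p := by positivity
            nlinarith

theorem round_matrix (κ : ℝ) (hκ : 0 < κ) (h : St_MAIN3 1 κ) :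
    ∃ C : ℝ, 0 < C ∧ ∀ (n : ℕ) (W : Type) [Fintype W] (k : ℕ) (t : ℝ) (A : W → Fin n → ℝ)
      (L : Set (Finset (Fin n))) (x₀ : Fin n → ℝ), Laminar L → 1 ≤ t → (∀ i j, |A i j| ≤ 1) →
      (∀ j, ∑ i, |A i j| ≤ t) →
      (∀ i, (supp (A i)).card ≤ k) → (∀ j, (supp (fun i => A i j)).card ≤ k) →
      (∀ j, 0 ≤ x₀ j ∧ x₀ j ≤ 1) →
      ∃ x : Fin n → ℤ, (∀ j, x j = 0 ∨ x j = 1) ∧
        (∀ S ∈ L, |∑ j ∈ S, ((x j : ℝ) - x₀ j)| < 1) ∧
        ∀ i, |∑ j, A i j * ((x j : ℝ) - x₀ j)| ≤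
          C * Real.sqrt (t + vr (A i) x₀ + (Real.log k) ^ (1 / κ)) := by
  classical
  obtain ⟨C₀, hC₀, hc⟩ := signing κ hκ h
  set p : ℝ := 1 / κ with hp
  have hp0 : 0 < p := by positivity
  set d : ℝ := 3 / 2 * C₀ with hd
  have hd0 : 0 < d := by positivity
  set c₁ : ℝ := 4 ^ p with hc₁
  have hc₁0 : 0 < c₁ := by positivity
  refine ⟨4 * d * Real.sqrt (3 + c₁) + 6 * d ^ 2 + 1, by positivity,
    fun n W _ k t A L x₀ hL ht h1 h2 h3 h4 hx => ?_⟩
  have ht0 : 0 ≤ t := by linarith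
  set τ : ℝ := 2 * t + (Real.log (2 * (2 * k) : ℕ)) ^ p with hτ
  have hlk : 0 ≤ Real.log k := Real.log_natCast_nonneg k
  have hΛ0 : 0 ≤ (Real.log k) ^ p := Real.rpow_nonneg hlk _
  have hτ0 : 0 ≤ τ := by
    have : 0 ≤ (Real.log (2 * (2 * k) : ℕ)) ^ p := Real.rpow_nonneg (Real.log_natCast_nonneg _) _
    linarith
  have hstep : Step L A C₀ τ := by
    intro β hβ O
    set A' : W ⊕ W → Fin n → ℝ := Sum.elim A (fun i j => |A i j| * β j) with hA'
    have hA'1 : ∀ i j, |A' (Sum.inr i) j| ≤ |A i j| := by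
      intro i j
      simp only [hA', Sum.elim_inr]
      rw [abs_mul, abs_abs]
      exact mul_le_of_le_one_right (abs_nonneg _) (hβ j)
    obtain ⟨s, hs1, hsL, hsb⟩ := hc n (W ⊕ W) (2 * k) (2 * t) A' L hL (by linarith) (by
      rintro (i | i) j
      · exact h1 i j
      · exact (hA'1 i j).trans (h1 i j)) (by
      intro j
      rw [Fintype.sum_sum_type]
      have e1 : ∑ i, |A' (Sum.inr i) j| ≤ ∑ i, |A i j| := Finset.sum_le_sum fun i _ => hA'1 i j
      have e2 := h2 j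
      have e3 : ∑ i, |A' (Sum.inl i) j| = ∑ i, |A i j| := rfl
      linarith) (by
      rintro (i | i)
      · exact (h3 i).trans (by omega)
      · refine le_trans (Finset.card_le_card ?_) ((h3 i).trans (by omega : k ≤ 2 * k))
        intro j hj
        rw [mem_supp] at hj ⊢
        intro e
        apply hj
        simp only [hA', Sum.elim_inr]
        rw [e]; simp) (by
      intro j
      have hsub : supp (fun r => A' r j) ⊆
          (supp (fun i => A i j)).disjSum (supp (fun i => A i j)) := by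
        rintro (i | i) hi
        · rw [mem_supp] at hi
          rw [Finset.inl_mem_disjSum, mem_supp]
          exact hi
        · rw [mem_supp] at hi
          rw [Finset.inr_mem_disjSum, mem_supp]
          intro e
          apply hi
          simp only [hA', Sum.elim_inr]
          rw [e]; simp
      refine (Finset.card_le_card hsub).trans ?_
      rw [Finset.card_disjSum]
      have := h4 j
      omega) O
    refine ⟨s, hs1, hsL, fun i => ⟨?_, ?_⟩⟩
    · have := hsb (Sum.inl i)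
      refine this.trans (mul_le_mul_of_nonneg_left (Real.sqrt_le_sqrt ?_) hC₀.le)
      have e3 : ∑ j ∈ O, |A' (Sum.inl i) j| = ∑ j ∈ O, |A i j| := rfl
      rw [e3, hτ]
      linarith
    · have := hsb (Sum.inr i)
      have e4 : ∑ j ∈ O, A' (Sum.inr i) j * (s j : ℝ) = ∑ j ∈ O, |A i j| * β j * (s j : ℝ) := rfl
      rw [e4] at this
      refine this.trans (mul_le_mul_of_nonneg_left (Real.sqrt_le_sqrt ?_) hC₀.le)
      have e3 : ∑ j ∈ O, |A' (Sum.inr i) j| ≤ ∑ j ∈ O, |A i j| :=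
        Finset.sum_le_sum fun j _ => hA'1 i j
      rw [hτ]
      linarith
  obtain ⟨M, hM⟩ := exists_nat_gt (∑ i, ∑ j, |A i j|)
  have hMr : (0:ℝ) < 2 ^ M := by positivity
  have hM2 : ∀ i, (∑ j, |A i j|) / 2 ^ M ≤ 1 := by
    intro i
    rw [div_le_one hMr]
    have e1 : ∑ j, |A i j| ≤ ∑ i, ∑ j, |A i j| :=
      Finset.single_le_sum (f := fun i => ∑ j, |A i j|)
        (fun i _ => Finset.sum_nonneg fun j _ => abs_nonneg _) (Finset.mem_univ i)
    have e2 : (M:ℝ) < 2 ^ M := by exact_mod_cast Nat.lt_two_pow_self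
    linarith
  obtain ⟨z, hz, hzL⟩ := exists_int hL _ (fun j => 2 ^ M * x₀ j) rfl
  have hz01 : ∀ j, 0 ≤ z j ∧ z j ≤ 2 ^ M := by
    intro j
    constructor
    · refine le_trans ?_ (hz j).1
      apply Int.floor_nonneg.2
      have := (hx j).1
      positivity
    · refine (hz j).2.trans ?_
      apply Int.ceil_le.2
      push_cast
      have := (hx j).2
      nlinarith
  obtain ⟨x, hx01, hxL, hxv⟩ := iterate A C₀ τ hC₀.le hτ0 hstep M z hz01
  refine ⟨x, hx01, ?_, ?_⟩
  · intro S hS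
    have h3 := hzL S hS
    have h4 := abs_le.1 (hxL S hS)
    rw [← Finset.mul_sum] at h3
    rw [Finset.sum_sub_distrib, ← Finset.mul_sum] at h4
    rw [Finset.sum_sub_distrib]
    set X : ℤ := ∑ j ∈ S, x j with hX
    set Z : ℤ := ∑ j ∈ S, z j with hZ
    have hXc : ∑ j ∈ S, (x j : ℝ) = (X : ℝ) := by rw [hX]; push_cast; rfl
    rw [hXc]
    set Y : ℝ := ∑ j ∈ S, x₀ j with hY
    have h5 : (2:ℝ) ^ M * Y - 1 < Z := by
      have := Int.lt_floor_add_one (2 ^ M * Y)
      have h6 : (⌊2 ^ M * Y⌋ : ℝ) ≤ Z := by exact_mod_cast h3.1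
      linarith
    have h6 : (Z : ℝ) < 2 ^ M * Y + 1 := by
      have := Int.ceil_lt_add_one (2 ^ M * Y)
      have h7 : (Z : ℝ) ≤ ⌈2 ^ M * Y⌉ := by exact_mod_cast h3.2
      linarith
    have h7 : (2:ℝ) ^ M * X - Z ≤ 2 ^ M - 1 := by exact_mod_cast h4.2
    have h8 : -((2:ℝ) ^ M - 1) ≤ 2 ^ M * X - Z := by exact_mod_cast h4.1
    have h9 : (2:ℝ) ^ M * (X - Y) < 2 ^ M * 1 := by linarith
    have h10 : (2:ℝ) ^ M * (-1) < 2 ^ M * (X - Y) := by linarith
    rw [abs_lt]
    exact ⟨lt_of_mul_lt_mul_left h10 hMr.le, lt_of_mul_lt_mul_left h9 hMr.le⟩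
  · intro i
    have hzx : ∀ j, |(z j : ℝ) / 2 ^ M - x₀ j| ≤ 1 / 2 ^ M := by
      intro j
      have h4 := Int.lt_floor_add_one (2 ^ M * x₀ j)
      have h5 := Int.ceil_lt_add_one (2 ^ M * x₀ j)
      have h6 : (⌊2 ^ M * x₀ j⌋ : ℝ) ≤ z j := by exact_mod_cast (hz j).1
      have h7 : (z j : ℝ) ≤ ⌈2 ^ M * x₀ j⌉ := by exact_mod_cast (hz j).2
      have e1 : (z j : ℝ) / 2 ^ M - x₀ j = (z j - 2 ^ M * x₀ j) / 2 ^ M := by
        field_simp
      rw [e1, abs_div, abs_of_pos hMr]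
      apply div_le_div_of_nonneg_right _ hMr.le
      rw [abs_le]
      constructor <;> linarith
    set u : Fin n → ℝ := fun j => (z j : ℝ) / 2 ^ M with hu
    have hu01 : ∀ j, 0 ≤ u j ∧ u j ≤ 1 := by
      intro j
      have h1 := hz01 j
      have h2 : (0:ℝ) ≤ z j := by exact_mod_cast h1.1
      have h3 : (z j : ℝ) ≤ 2 ^ M := by exact_mod_cast h1.2
      simp only [hu]
      exact ⟨by positivity, by rw [div_le_one hMr]; exact h3⟩
    have hV0 : 0 ≤ vr (A i) x₀ := vr_nonneg _ _ hx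
    have hVu : vr (A i) u ≤ vr (A i) x₀ + 1 := by
      have e1 : vr (A i) u ≤ vr (A i) x₀ + (∑ j, |A i j|) / 2 ^ M := by
        rw [vr, vr, Finset.sum_div, ← Finset.sum_add_distrib]
        apply Finset.sum_le_sum
        intro j _
        have e2 := abs_le.1 (hzx j)
        have e3 : u j * (1 - u j) ≤ x₀ j * (1 - x₀ j) + 1 / 2 ^ M := by
          have e4 : u j * (1 - u j) - x₀ j * (1 - x₀ j) = (u j - x₀ j) * (1 - u j - x₀ j) := by
            ring
          have e5 : |(u j - x₀ j) * (1 - u j - x₀ j)| ≤ 1 / 2 ^ M * 1 := by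
            rw [abs_mul]
            apply mul_le_mul (hzx j) _ (abs_nonneg _) (by positivity)
            rw [abs_le]
            have := hu01 j
            have := hx j
            constructor <;> linarith
          have := (abs_le.1 e5).2
          linarith
        have e6 := mul_le_mul_of_nonneg_left e3 (abs_nonneg (A i j))
        refine e6.trans (le_of_eq ?_)
        ring
      have := hM2 i
      linarith
    have e : ∑ j, A i j * ((x j : ℝ) - x₀ j) =
        ∑ j, A i j * ((x j : ℝ) - u j) + ∑ j, A i j * (u j - x₀ j) := by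
      rw [← Finset.sum_add_distrib]
      refine Finset.sum_congr rfl fun j _ => ?_
      ring
    have herr2 : |∑ j, A i j * (u j - x₀ j)| ≤ 1 := by
      refine le_trans ?_ (hM2 i)
      rw [Finset.sum_div]
      refine (Finset.abs_sum_le_sum_abs _ _).trans (Finset.sum_le_sum fun j _ => ?_)
      rw [abs_mul, div_eq_mul_one_div]
      exact mul_le_mul_of_nonneg_left (hzx j) (abs_nonneg _)
    set Ψ : ℝ := Real.sqrt (t + vr (A i) x₀ + (Real.log k) ^ p) with hΨ
    have hΨ1 : 1 ≤ Ψ := by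
      rw [hΨ]
      apply Real.one_le_sqrt.2
      linarith
    have hΦ : Real.sqrt (τ + vr (A i) u) ≤ Real.sqrt (3 + c₁) * Ψ := by
      rw [hΨ, ← Real.sqrt_mul (by positivity)]
      apply Real.sqrt_le_sqrt
      have e1 := log_four k p hp0
      rw [← hc₁] at e1
      have e2 : c₁ * 1 ≤ c₁ * t := mul_le_mul_of_nonneg_left ht hc₁0.le
      have e3 : 0 ≤ c₁ * vr (A i) x₀ := by positivity
      have e5 : (Real.log (2 * (2 * k) : ℕ)) ^ p ≤ c₁ + c₁ * (Real.log k) ^ p := by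
        refine e1.trans (le_of_eq (by ring))
      have e6 : (3 + c₁) * (t + vr (A i) x₀ + (Real.log k) ^ p) =
        3 * t + 3 * vr (A i) x₀ + 3 * (Real.log k) ^ p + c₁ * t + c₁ * vr (A i) x₀
          + c₁ * (Real.log k) ^ p := by ring
      rw [e6, hτ]
      linarith
    have hmain := hxv i
    have hq : (0:ℝ) ≤ (3 / 4) ^ M := by positivity
    have hq1 : 1 - ((3:ℝ) / 4) ^ M ≤ 1 := by linarith
    have h5 : 0 ≤ 4 * (3 / 2 * C₀) * Real.sqrt (τ + vr (A i) u) + 6 * (3 / 2 * C₀) ^ 2 := by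
      positivity
    have h6 : |∑ j, A i j * ((x j : ℝ) - u j)| ≤ 4 * d * Real.sqrt (τ + vr (A i) u) + 6 * d ^ 2 := by
      refine hmain.trans ?_
      rw [hd]
      calc _ ≤ (4 * (3 / 2 * C₀) * Real.sqrt (τ + vr (A i) u) + 6 * (3 / 2 * C₀) ^ 2) * 1 :=
            mul_le_mul_of_nonneg_left hq1 h5
        _ = _ := mul_one _
    rw [e]
    refine (abs_add_le _ _).trans ?_
    have h7 : 4 * d * Real.sqrt (τ + vr (A i) u) ≤ 4 * d * (Real.sqrt (3 + c₁) * Ψ) :=
      mul_le_mul_of_nonneg_left hΦ (by positivity)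
    have h8 : 6 * d ^ 2 ≤ 6 * d ^ 2 * Ψ := le_mul_of_one_le_right (by positivity) hΨ1
    calc |∑ j, A i j * ((x j : ℝ) - u j)| + |∑ j, A i j * (u j - x₀ j)|
        ≤ (4 * d * Real.sqrt (τ + vr (A i) u) + 6 * d ^ 2) + 1 := add_le_add h6 herr2
      _ ≤ (4 * d * Real.sqrt (3 + c₁) + 6 * d ^ 2 + 1) * Ψ := by
          have : (4 * d * Real.sqrt (3 + c₁) + 6 * d ^ 2 + 1) * Ψ =
            4 * d * (Real.sqrt (3 + c₁) * Ψ) + 6 * d ^ 2 * Ψ + Ψ := by ring
          rw [this]
          linarith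

end Pool.Agent.J4.H92.BF
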