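import Pool.Agent.J4.H92.BF.Split

/-!
# Splitting a set of columns into `k` classes of equal size
-/

set_option autoImplicit false

namespace Pool.Agent.J4.H92.BF

open Finset Pool.Agent.R814.Lam

/-- the hypothesis on splittings -/
def CanSplit {n : ℕ} {W : Type} (L : Set (Finset (Fin n))) (A : W → Fin n → ℝ) (C τ : ℝ) : Prop :=
  ∀ (U : Finset (Fin n)) (k1 k2 : ℕ), 0 < k1 → 0 < k2 →
    ∃ V : Finset (Fin n), V ⊆ U ∧
      (∀ T ∈ L, |((T ∩ V).card : ℝ) - (k1 : ℝ) / (k1 + k2) * (T ∩ U).card| < 1) ∧
      ∀ i, |∑ j ∈ V, A i j - (k1 : ℝ) / (k1 + k2) * ∑ j ∈ U, A i j| ≤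
          C * Real.sqrt (τ + cnt (A i) U) ∧
        |cnt (A i) V - (k1 : ℝ) / (k1 + k2) * cnt (A i) U| ≤ C * Real.sqrt (τ + cnt (A i) U)

/-- the bound for `k` classes -/
noncomputable def bd (C τ N : ℝ) (k : ℕ) : ℝ :=
  (15 * C * Real.sqrt (τ + N / k) + 120 * C ^ 2) * (1 - 1 / Real.sqrt k)

/-- one step of the recursion for the bounds -/
theorem bd_step (C τ N N' : ℝ) (k k1 : ℕ) (hC : 0 ≤ C) (hτ : 0 ≤ τ) (hN : 0 ≤ N) (hN' : 0 ≤ N')
    (hk1 : 0 < k1) (h3 : k ≤ 3 * k1) (h2 : 3 * k1 ≤ 2 * k)
    (hNN : N' ≤ (k1 : ℝ) / k * N + C * Real.sqrt (τ + N)) :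
    bd C τ N' k1 + 1 / k1 * (C * Real.sqrt (τ + N)) ≤ bd C τ N k := by
  have hk : 0 < k := by omega
  have hkr : (0:ℝ) < k := by exact_mod_cast hk
  have hk1r : (0:ℝ) < k1 := by exact_mod_cast hk1
  have h3r : (k:ℝ) ≤ 3 * k1 := by exact_mod_cast h3
  have h2r : 3 * (k1:ℝ) ≤ 2 * k := by exact_mod_cast h2
  set Φ : ℝ := Real.sqrt (τ + N / k) with hΦ
  set s : ℝ := Real.sqrt k with hs
  have hs0 : 0 < s := Real.sqrt_pos.2 hkr
  have hss : s * s = k := Real.mul_self_sqrt hkr.le
  set s1 : ℝ := Real.sqrt k1 with hs1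
  have hs10 : 0 < s1 := Real.sqrt_pos.2 hk1r
  have hs11 : 1 ≤ s1 := by
    rw [hs1]
    apply Real.one_le_sqrt.2
    exact_mod_cast hk1
  have hss1 : s1 * s1 = k1 := Real.mul_self_sqrt hk1r.le
  set g : ℝ := 1 / s with hg
  set g1 : ℝ := 1 / s1 with hg1
  have hg0 : 0 < g := by positivity
  have hg11 : g1 ≤ 1 := by
    rw [hg1, div_le_one hs10]; exact hs11
  have hgg : 6 / 5 * g ≤ g1 := by
    rw [hg, hg1, mul_one_div, div_le_div_iff₀ hs0 hs10, one_mul]
    rw [← pow_le_pow_iff_left₀ (by positivity) hs0.le two_ne_zero]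
    have e1 : (6 / 5 * s1) ^ 2 = 36 / 25 * k1 := by rw [← hss1]; ring
    have e2 : s ^ 2 = k := by rw [← hss]; ring
    rw [e1, e2]
    linarith
  have hΦ0 : 0 ≤ Φ := Real.sqrt_nonneg _
  have hΦ2 : Φ ^ 2 = τ + N / k := Real.sq_sqrt (by positivity)
  -- the error of the splitting
  have hF : Real.sqrt (τ + N) ≤ s * Φ := by
    rw [hs, hΦ, ← Real.sqrt_mul hkr.le]
    apply Real.sqrt_le_sqrt
    have e1 : (k:ℝ) * (τ + N / k) = k * τ + N := by field_simp
    have e2 : 1 * τ ≤ k * τ := by
      apply mul_le_mul_of_nonneg_right _ hτ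
      exact_mod_cast hk
    rw [e1]
    linarith
  have hE : 1 / k1 * (C * Real.sqrt (τ + N)) ≤ 3 * C * Φ * g := by
    have e1 : 1 / (k1:ℝ) ≤ 3 / k := by
      rw [div_le_div_iff₀ hk1r hkr]; linarith
    calc 1 / k1 * (C * Real.sqrt (τ + N)) ≤ 3 / k * (C * (s * Φ)) := by
          apply mul_le_mul e1 (mul_le_mul_of_nonneg_left hF hC) (by positivity) (by positivity)
      _ = 3 * C * Φ * g := by
          rw [hg, ← hss]
          field_simp
  have hΦ' : Real.sqrt (τ + N' / k1) ≤ Φ + 3 / 2 * C * g := by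
    rw [Real.sqrt_le_iff]
    refine ⟨by positivity, ?_⟩
    have e1 : N' / k1 ≤ N / k + 1 / k1 * (C * Real.sqrt (τ + N)) := by
      rw [div_le_iff₀ hk1r]
      refine hNN.trans (le_of_eq ?_)
      field_simp
    have e2 : 0 ≤ (3 / 2 * C * g) ^ 2 := sq_nonneg _
    nlinarith
  unfold bd
  rw [← hΦ, ← hs, ← hs1, ← hg, ← hg1]
  have h4 : (15 * C * Real.sqrt (τ + N' / k1) + 120 * C ^ 2) * (1 - g1) ≤
      (15 * C * (Φ + 3 / 2 * C * g) + 120 * C ^ 2) * (1 - g1) := by
    apply mul_le_mul_of_nonneg_right _ (by linarith)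
    have := mul_le_mul_of_nonneg_left hΦ' (by positivity : 0 ≤ 15 * C)
    linarith
  have h5 : 0 ≤ C * Φ * (g1 - 6 / 5 * g) := mul_nonneg (by positivity) (by linarith)
  have h6 : 0 ≤ C ^ 2 * (g1 - 6 / 5 * g) := mul_nonneg (by positivity) (by linarith)
  have h7 : 0 ≤ C ^ 2 * g * g1 := by positivity
  have h8 : 0 ≤ C ^ 2 * g := by positivity
  nlinarith

theorem recursion {n : ℕ} {W : Type} {L : Set (Finset (Fin n))} (A : W → Fin n → ℝ) (C τ : ℝ)
    (hC : 0 ≤ C) (hτ : 0 ≤ τ) (hs : CanSplit L A C τ) :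
    ∀ (k : ℕ), 0 < k → ∀ U : Finset (Fin n), ∃ c : Fin n → ℕ, (∀ j ∈ U, c j < k) ∧
      (∀ T ∈ L, ∀ lo hi : ℕ, k * lo ≤ (T ∩ U).card → (T ∩ U).card ≤ k * hi → ∀ a < k,
        lo ≤ ((T ∩ U).filter (fun j => c j = a)).card ∧
        ((T ∩ U).filter (fun j => c j = a)).card ≤ hi) ∧
      ∀ i, ∀ a < k, |∑ j ∈ U.filter (fun j => c j = a), A i j - 1 / k * ∑ j ∈ U, A i j| ≤
        bd C τ (cnt (A i) U) k := by
  classical
  intro k
  induction k using Nat.strong_induction_on with
  | _ k ih =>
    intro hk U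
    rcases Nat.lt_or_ge 1 k with hk1 | hk1
    · -- split
      set k1 := k / 2 with hk1'
      set k2 := k - k1 with hk2'
      have hkk : k1 + k2 = k := by omega
      have h10 : 0 < k1 := by omega
      have h20 : 0 < k2 := by omega
      obtain ⟨V, hVU, hVL, hVA⟩ := hs U k1 k2 h10 h20
      obtain ⟨c1, hc1, hc1L, hc1A⟩ := ih k1 (by omega) h10 V
      obtain ⟨c2, hc2, hc2L, hc2A⟩ := ih k2 (by omega) h20 (U \ V)
      have hkr : (0:ℝ) < k := by exact_mod_cast hk
      have h1r : (0:ℝ) < k1 := by exact_mod_cast h10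
      have h2r : (0:ℝ) < k2 := by exact_mod_cast h20
      have hkkr : (k1:ℝ) + k2 = k := by exact_mod_cast hkk
      rw [hkkr] at hVL hVA
      have hTV : ∀ T : Finset (Fin n), (T ∩ U).card = (T ∩ V).card + (T ∩ (U \ V)).card := by
        intro T
        rw [← Finset.card_union_of_disjoint]
        · congr 1
          ext j
          simp only [Finset.mem_inter, Finset.mem_union, Finset.mem_sdiff]
          constructor
          · rintro ⟨h1, h2⟩
            by_cases h3 : j ∈ V
            · exact Or.inl ⟨h1, h3⟩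
            · exact Or.inr ⟨h1, h2, h3⟩
          · rintro (⟨h1, h2⟩ | ⟨h1, h2, _⟩)
            · exact ⟨h1, hVU h2⟩
            · exact ⟨h1, h2⟩
        · rw [Finset.disjoint_left]
          intro j hj hj'
          simp only [Finset.mem_inter, Finset.mem_sdiff] at hj hj'
          exact hj'.2.2 hj.2
      set c : Fin n → ℕ := fun j => if j ∈ V then c1 j else k1 + c2 j with hc
      have hfil1 : ∀ (T : Finset (Fin n)) (a : ℕ), T ⊆ U → a < k1 →
          T.filter (fun j => c j = a) = (T ∩ V).filter (fun j => c1 j = a) := by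
        intro T a hTU ha
        ext j
        simp only [Finset.mem_filter, Finset.mem_inter, hc]
        constructor
        · rintro ⟨h1, h2⟩
          by_cases h3 : j ∈ V
          · rw [if_pos h3] at h2
            exact ⟨⟨h1, h3⟩, h2⟩
          · rw [if_neg h3] at h2
            omega
        · rintro ⟨⟨h1, h2⟩, h3⟩
          rw [if_pos h2]
          exact ⟨h1, h3⟩
      have hfil2 : ∀ (T : Finset (Fin n)) (a : ℕ), T ⊆ U → a < k → k1 ≤ a →
          T.filter (fun j => c j = a) = (T ∩ (U \ V)).filter (fun j => c2 j = a - k1) := by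
        intro T a hTU ha ha'
        ext j
        simp only [Finset.mem_filter, Finset.mem_inter, Finset.mem_sdiff, hc]
        constructor
        · rintro ⟨h1, h2⟩
          by_cases h3 : j ∈ V
          · rw [if_pos h3] at h2
            have := hc1 j h3
            omega
          · rw [if_neg h3] at h2
            exact ⟨⟨h1, hTU h1, h3⟩, by omega⟩
        · rintro ⟨⟨h1, h2, h3⟩, h4⟩
          rw [if_neg h3]
          exact ⟨h1, by omega⟩
      refine ⟨c, ?_, ?_, ?_⟩
      · intro j hj
        simp only [hc]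
        by_cases h3 : j ∈ V
        · rw [if_pos h3]
          have := hc1 j h3
          omega
        · rw [if_neg h3]
          have := hc2 j (Finset.mem_sdiff.2 ⟨hj, h3⟩)
          omega
      · intro T hT lo hi hlo hhi a ha
        have hTU : T ∩ U ⊆ U := Finset.inter_subset_right
        have h5 := abs_lt.1 (hVL T hT)
        have hlor : (k:ℝ) * lo ≤ (T ∩ U).card := by exact_mod_cast hlo
        have hhir : ((T ∩ U).card : ℝ) ≤ k * hi := by exact_mod_cast hhi
        have h6 : (k1:ℝ) * lo ≤ (k1:ℝ) / k * (T ∩ U).card := by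
          rw [div_mul_eq_mul_div, le_div_iff₀ hkr]
          nlinarith
        have h7 : (k1:ℝ) / k * (T ∩ U).card ≤ k1 * hi := by
          rw [div_mul_eq_mul_div, div_le_iff₀ hkr]
          nlinarith
        have h8 : k1 * lo ≤ (T ∩ V).card := by
          have : (k1:ℝ) * lo < (T ∩ V).card + 1 := by linarith
          have : k1 * lo < (T ∩ V).card + 1 := by exact_mod_cast this
          omega
        have h9 : (T ∩ V).card ≤ k1 * hi := by
          have : ((T ∩ V).card : ℝ) < k1 * hi + 1 := by linarith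
          have : (T ∩ V).card < k1 * hi + 1 := by exact_mod_cast this
          omega
        have hd := hTV T
        have hdr : ((T ∩ U).card : ℝ) = (T ∩ V).card + (T ∩ (U \ V)).card := by exact_mod_cast hd
        have h10' : (k1:ℝ) / k * (T ∩ U).card + (k2:ℝ) / k * (T ∩ U).card = (T ∩ U).card := by
          rw [← add_mul, ← add_div, hkkr, div_self hkr.ne', one_mul]
        have h11 : (k2:ℝ) * lo ≤ (k2:ℝ) / k * (T ∩ U).card := by
          rw [div_mul_eq_mul_div, le_div_iff₀ hkr]
          nlinarith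
        have h12 : (k2:ℝ) / k * (T ∩ U).card ≤ k2 * hi := by
          rw [div_mul_eq_mul_div, div_le_iff₀ hkr]
          nlinarith
        have h13 : k2 * lo ≤ (T ∩ (U \ V)).card := by
          have : (k2:ℝ) * lo < (T ∩ (U \ V)).card + 1 := by linarith
          have : k2 * lo < (T ∩ (U \ V)).card + 1 := by exact_mod_cast this
          omega
        have h14 : (T ∩ (U \ V)).card ≤ k2 * hi := by
          have : ((T ∩ (U \ V)).card : ℝ) < k2 * hi + 1 := by linarith
          have : (T ∩ (U \ V)).card < k2 * hi + 1 := by exact_mod_cast this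
          omega
        rcases Nat.lt_or_ge a k1 with h15 | h15
        · rw [hfil1 _ a hTU h15]
          have e : T ∩ U ∩ V = T ∩ V := by
            rw [Finset.inter_assoc, Finset.inter_eq_right.2 hVU]
          rw [e]
          exact hc1L T hT lo hi h8 h9 a h15
        · rw [hfil2 _ a hTU ha h15]
          have e : T ∩ U ∩ (U \ V) = T ∩ (U \ V) := by
            rw [Finset.inter_assoc, Finset.inter_eq_right.2 Finset.sdiff_subset]
          rw [e]
          exact hc2L T hT lo hi h13 h14 (a - k1) (by omega)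
      · intro i a ha
        obtain ⟨hA1, hA2⟩ := hVA i
        have hN0 := cnt_nonneg (A i) U
        have hsplit : ∀ f : Fin n → ℝ, ∑ j ∈ U, f j = ∑ j ∈ V, f j + ∑ j ∈ U \ V, f j := by
          intro f
          rw [add_comm, Finset.sum_sdiff hVU]
        rcases Nat.lt_or_ge a k1 with h15 | h15
        · rw [hfil1 U a subset_rfl h15, Finset.inter_eq_right.2 hVU]
          have h5 := hc1A i a h15
          have hstep := bd_step C τ (cnt (A i) U) (cnt (A i) V) k k1 hC hτ hN0
            (cnt_nonneg _ _) h10 (by omega) (by omega) (by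
              have := (abs_le.1 hA2).2
              linarith)
          refine le_trans ?_ hstep
          have e : ∑ j ∈ V.filter (fun j => c1 j = a), A i j - 1 / k * ∑ j ∈ U, A i j =
              (∑ j ∈ V.filter (fun j => c1 j = a), A i j - 1 / k1 * ∑ j ∈ V, A i j) +
              1 / k1 * (∑ j ∈ V, A i j - (k1:ℝ) / k * ∑ j ∈ U, A i j) := by
            field_simp
            ring
          rw [e]
          refine (abs_add_le _ _).trans (add_le_add h5 ?_)
          rw [abs_mul, abs_of_pos (by positivity : (0:ℝ) < 1 / k1)]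
          exact mul_le_mul_of_nonneg_left hA1 (by positivity)
        · rw [hfil2 U a subset_rfl ha h15, Finset.inter_eq_right.2 Finset.sdiff_subset]
          have h5 := hc2A i (a - k1) (by omega)
          have e1 : ∑ j ∈ U \ V, A i j - (k2:ℝ) / k * ∑ j ∈ U, A i j =
              -(∑ j ∈ V, A i j - (k1:ℝ) / k * ∑ j ∈ U, A i j) := by
            rw [hsplit (A i)]
            have : (k1:ℝ) = k - k2 := by linarith
            rw [this]
            field_simp
            ring
          have e2 : cnt (A i) (U \ V) - (k2:ℝ) / k * cnt (A i) U =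
              -(cnt (A i) V - (k1:ℝ) / k * cnt (A i) U) := by
            have e3 : cnt (A i) U = cnt (A i) V + cnt (A i) (U \ V) := hsplit (fun j => |A i j|)
            rw [e3]
            have : (k1:ℝ) = k - k2 := by linarith
            rw [this]
            field_simp
            ring
          have hA1' : |∑ j ∈ U \ V, A i j - (k2:ℝ) / k * ∑ j ∈ U, A i j| ≤
              C * Real.sqrt (τ + cnt (A i) U) := by rw [e1, abs_neg]; exact hA1
          have hA2' : |cnt (A i) (U \ V) - (k2:ℝ) / k * cnt (A i) U| ≤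
              C * Real.sqrt (τ + cnt (A i) U) := by rw [e2, abs_neg]; exact hA2
          have hstep := bd_step C τ (cnt (A i) U) (cnt (A i) (U \ V)) k k2 hC hτ hN0
            (cnt_nonneg _ _) h20 (by omega) (by omega) (by
              have := (abs_le.1 hA2').2
              linarith)
          refine le_trans ?_ hstep
          have e : ∑ j ∈ (U \ V).filter (fun j => c2 j = a - k1), A i j - 1 / k * ∑ j ∈ U, A i j =
              (∑ j ∈ (U \ V).filter (fun j => c2 j = a - k1), A i j -
                1 / k2 * ∑ j ∈ U \ V, A i j) +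
              1 / k2 * (∑ j ∈ U \ V, A i j - (k2:ℝ) / k * ∑ j ∈ U, A i j) := by
            field_simp
            ring
          rw [e]
          refine (abs_add_le _ _).trans (add_le_add h5 ?_)
          rw [abs_mul, abs_of_pos (by positivity : (0:ℝ) < 1 / k2)]
          exact mul_le_mul_of_nonneg_left hA1' (by positivity)
    · -- one class
      have hk' : k = 1 := by omega
      subst hk'
      refine ⟨fun _ => 0, fun _ _ => one_pos, ?_, ?_⟩
      · intro T _ lo hi hlo hhi a ha
        have ha0 : a = 0 := by omega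
        subst ha0
        have e : (T ∩ U).filter (fun _ => (0:ℕ) = 0) = T ∩ U := Finset.filter_true_of_mem
          (fun _ _ => rfl)
        rw [e]
        omega
      · intro i a ha
        have ha0 : a = 0 := by omega
        subst ha0
        have e : U.filter (fun _ => (0:ℕ) = 0) = U := Finset.filter_true_of_mem
          (fun _ _ => rfl)
        rw [e]
        unfold bd
        simp

end Pool.Agent.J4.H92.BF
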