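import Pool.Agent.R814.Lam.Basic

/-!
# Pairs that respect a laminar family
-/

set_option autoImplicit false

namespace Pool.Agent.J4.H92.BF

open Finset Pool.Agent.R814.Lam

/-- The points of `O` can be grouped into singletons and pairs with opposite signs (the group of
`j` is `g j`, its sign `σ j`) so that every choice of signs of the groups gives signs of the
points of `O` with all sums over the members of `L` at most one. -/
theorem pairing {n : ℕ} {L : Set (Finset (Fin n))} (hL : Laminar L) :
    ∀ (m : ℕ) (O : Finset (Fin n)), O.card = m →
      ∃ (g : Fin n → Fin n) (σ : Fin n → ℤ), (∀ j, σ j = 1 ∨ σ j = -1) ∧ (∀ j ∈ O, g j ∈ O) ∧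
        (∀ a, (O.filter (fun j => g j = a)).card ≤ 2) ∧
        ∀ ε : Fin n → ℤ, (∀ a, ε a = 1 ∨ ε a = -1) →
          ∀ S ∈ L, |∑ j ∈ S ∩ O, ε (g j) * σ j| ≤ 1 := by
  classical
  intro m
  induction m using Nat.strong_induction_on with
  | _ m ih =>
    intro O hO
    by_cases hcase : ∃ S ∈ L, 2 ≤ (S ∩ O).card
    · obtain ⟨S, hS, hS2, hmin⟩ := exists_min L O hcase
      obtain ⟨a, ha, b, hb, hab⟩ := Finset.one_lt_card.1 (by omega : 1 < (S ∩ O).card)
      rw [Finset.mem_inter] at ha hb
      set O' := (O.erase a).erase b with hO'
      have hbO : b ∈ O.erase a := Finset.mem_erase.2 ⟨hab.symm, hb.2⟩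
      have hcard : O'.card + 2 = m := by
        have e1 := Finset.card_erase_add_one ha.2
        have e2 := Finset.card_erase_add_one hbO
        rw [hO']
        omega
      obtain ⟨g', σ', hσ', hg', hc', hε'⟩ := ih O'.card (by omega) O' rfl
      have haO' : a ∉ O' := by simp [hO']
      have hbO' : b ∉ O' := by simp [hO']
      have hO'O : ∀ j ∈ O', j ∈ O ∧ j ≠ a ∧ j ≠ b := by
        intro j hj
        rw [hO', Finset.mem_erase, Finset.mem_erase] at hj
        exact ⟨hj.2.2, hj.2.1, hj.1⟩
      have hO'' : ∀ j ∈ O, j ≠ a → j ≠ b → j ∈ O' := by
        intro j hj h1 h2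
        rw [hO', Finset.mem_erase, Finset.mem_erase]
        exact ⟨h2, h1, hj⟩
      refine ⟨fun j => if j = a then a else if j = b then a else g' j,
        fun j => if j = a then 1 else if j = b then -1 else σ' j, ?_, ?_, ?_, ?_⟩
      · intro j
        show (if j = a then (1:ℤ) else if j = b then -1 else σ' j) = 1 ∨
          (if j = a then (1:ℤ) else if j = b then -1 else σ' j) = -1
        split_ifs
        · exact Or.inl rfl
        · exact Or.inr rfl
        · exact hσ' j
      · intro j hj
        show (if j = a then a else if j = b then a else g' j) ∈ O
        split_ifs with h1 h2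
        · exact ha.2
        · exact ha.2
        · exact (hO'O _ (hg' j (hO'' j hj h1 h2))).1
      · intro c
        by_cases hca : c = a
        · have hsub : O.filter (fun j => (if j = a then a else if j = b then a else g' j) = c) ⊆
              {a, b} := by
            intro j hj
            rw [Finset.mem_filter] at hj
            rw [Finset.mem_insert, Finset.mem_singleton]
            by_contra hcon
            push Not at hcon
            have h3 : (if j = a then a else if j = b then a else g' j) = c := hj.2
            rw [if_neg hcon.1, if_neg hcon.2, hca] at h3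
            apply haO'
            rw [← h3]
            exact hg' j (hO'' j hj.1 hcon.1 hcon.2)
          exact (Finset.card_le_card hsub).trans Finset.card_le_two
        · refine le_trans (Finset.card_le_card ?_) (hc' c)
          intro j hj
          rw [Finset.mem_filter] at hj
          have h3 : (if j = a then a else if j = b then a else g' j) = c := hj.2
          have h1 : j ≠ a := by
            intro h4
            rw [if_pos h4] at h3
            exact hca h3.symm
          have h2 : j ≠ b := by
            intro h4
            rw [if_neg h1, if_pos h4] at h3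
            exact hca h3.symm
          rw [if_neg h1, if_neg h2] at h3
          exact Finset.mem_filter.2 ⟨hO'' j hj.1 h1 h2, h3⟩
      · intro ε hε T hT
        set f : Fin n → ℤ := fun j => ε (if j = a then a else if j = b then a else g' j) *
          (if j = a then 1 else if j = b then -1 else σ' j) with hf
        show |∑ j ∈ T ∩ O, f j| ≤ 1
        have hfa : f a = ε a := by simp [hf]
        have hfb : f b = - ε a := by simp [hf, hab.symm]
        have hfO : ∀ j ∈ O', f j = ε (g' j) * σ' j := by
          intro j hj
          obtain ⟨_, h1, h2⟩ := hO'O j hj
          simp [hf, h1, h2]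
        have hf1 : ∀ j, f j = 1 ∨ f j = -1 := by
          intro j
          have e1 := hε (if j = a then a else if j = b then a else g' j)
          have e2 : (if j = a then (1:ℤ) else if j = b then -1 else σ' j) = 1 ∨
              (if j = a then (1:ℤ) else if j = b then -1 else σ' j) = -1 := by
            split_ifs
            · exact Or.inl rfl
            · exact Or.inr rfl
            · exact hσ' j
          simp only [hf]
          rcases e1 with e1 | e1 <;> rcases e2 with e2 | e2 <;> rw [e1, e2] <;> norm_num
        by_cases hT2 : 2 ≤ (T ∩ O).card
        · have hiff := both_or_none hL hS hT hmin hT2 ha.1 hb.1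
          have e1 : ∀ (O₁ : Finset (Fin n)) (f : Fin n → ℤ),
              ∑ j ∈ T ∩ O₁, f j = ∑ j ∈ O₁, if j ∈ T then f j else 0 := by
            intro O₁ f
            rw [Finset.inter_comm, ← Finset.filter_mem_eq_inter, Finset.sum_filter]
          have e2 : ∑ j ∈ T ∩ O, f j = ∑ j ∈ T ∩ O', ε (g' j) * σ' j := by
            rw [e1, e1, ← Finset.add_sum_erase _ _ ha.2, ← Finset.add_sum_erase _ _ hbO,
              ← add_assoc]
            have e3 : (if a ∈ T then f a else 0) + (if b ∈ T then f b else 0) = 0 := by
              by_cases h : a ∈ T
              · rw [if_pos h, if_pos (hiff.1 h), hfa, hfb]; ring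
              · rw [if_neg h, if_neg (fun h' => h (hiff.2 h'))]; ring
            rw [e3, zero_add]
            refine Finset.sum_congr rfl fun j hj => ?_
            rw [hfO j hj]
          rw [e2]
          exact hε' ε hε T hT
        · exact abs_sum_le_one _ f hf1 (by omega)
    · push Not at hcase
      refine ⟨fun j => j, fun _ => 1, fun _ => Or.inl rfl, fun j hj => hj, fun a => ?_,
        fun ε hε T hT => ?_⟩
      · have hsub : O.filter (fun j => j = a) ⊆ {a} := by
          intro j hj
          rw [Finset.mem_filter] at hj
          rw [Finset.mem_singleton]
          exact hj.2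
        exact (Finset.card_le_card hsub).trans (by simp)
      · have h1 := hcase T hT
        simp only [mul_one]
        exact abs_sum_le_one _ ε hε (by omega)

end Pool.Agent.J4.H92.BF
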