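import Pool.Agent.J4.H92.BF.Main

/-!
# Rounding of arbitrary points with laminar constraints: set systems of bounded degree

Long sets are cut into pieces.
-/

set_option autoImplicit false

namespace Pool.Agent.J4.H92.BF

open Finset Pool.Agent.R814.Lam Pool.Agent.H320R2.LD Pool.Agent.R959.LD2 Pool.Agent.R959.LD3

theorem sum_piece_real {n : ℕ} (S : Finset (Fin n)) (k : ℕ) (f : Fin n → ℝ) :
    ∑ i ∈ S, f i = ∑ p ∈ Finset.range (S.card / k + 1), ∑ i ∈ piece S k p, f i := by
  have := Finset.sum_fiberwise_of_maps_to (s := S) (t := Finset.range (S.card / k + 1))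
    (g := fun i => rk S i / k) (by
      intro i hi
      rw [Finset.mem_range]
      have := Nat.div_le_div_right (c := k) (rk_lt_card S i hi).le
      omega) f
  rw [← this]
  rfl

/-- the length of the pieces -/
theorem exists_length (κ : ℝ) (hκ : 0 < κ) : ∃ c2 : ℝ, 0 < c2 ∧ ∀ t : ℝ, 1 ≤ t → ∃ k : ℕ, 0 < k ∧
    t ≤ k ∧ Real.exp (t ^ κ) ≤ Real.sqrt k ∧ (Real.log k) ^ (1 / κ) ≤ c2 * t := by
  refine ⟨(3 + 1 / κ) ^ (1 / κ), by positivity, fun t htr => ?_⟩
  set c2 : ℝ := (3 + 1 / κ) ^ (1 / κ) with hc2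
  have ht0 : (0 : ℝ) < t := by linarith
  set T : ℝ := (t : ℝ) ^ κ with hT
  have hT1 : 1 ≤ T := Real.one_le_rpow htr hκ.le
  have hT0 : 0 < T := by linarith
  set k : ℕ := ⌈(t : ℝ) * Real.exp (2 * T)⌉₊ with hk
  have hkge : (t : ℝ) * Real.exp (2 * T) ≤ k := Nat.le_ceil _
  have hexp1 : 1 ≤ Real.exp (2 * T) := Real.one_le_exp (by positivity)
  have hte : 1 ≤ (t : ℝ) * Real.exp (2 * T) := by nlinarith
  have hk2 : (k : ℝ) ≤ 2 * ((t : ℝ) * Real.exp (2 * T)) := by
    have : (k : ℝ) < (t : ℝ) * Real.exp (2 * T) + 1 := Nat.ceil_lt_add_one (by positivity)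
    linarith
  have hk1 : (1 : ℝ) ≤ k := hte.trans hkge
  have hk0 : 0 < k := by exact_mod_cast (lt_of_lt_of_le one_pos hk1)
  have hk0r : (0 : ℝ) < k := by linarith
  have htk : (t : ℝ) ≤ k := by nlinarith
  have hlogk : Real.log k ≤ (3 + 1 / κ) * T := by
    have h1 : Real.log k ≤ Real.log (2 * ((t : ℝ) * Real.exp (2 * T))) :=
      Real.log_le_log hk0r hk2
    rw [Real.log_mul (by norm_num) (by positivity), Real.log_mul (by positivity) (by positivity),
      Real.log_exp] at h1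
    have h2 : Real.log 2 ≤ 1 := by
      have := Real.log_le_sub_one_of_pos (show (0:ℝ) < 2 by norm_num)
      linarith
    have h3 : Real.log t ≤ T / κ := Real.log_le_rpow_div ht0.le hκ
    have h4 : (3 + 1 / κ) * T = 3 * T + T / κ := by ring
    rw [h4]
    linarith
  have hlogk0 : 0 ≤ Real.log k := Real.log_natCast_nonneg k
  refine ⟨k, hk0, htk, ?_, ?_⟩
  · apply Real.le_sqrt_of_sq_le
    calc Real.exp T ^ 2 = Real.exp (2 * T) := by
          rw [← Real.exp_nat_mul]; push_cast; ring_nf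
      _ ≤ (t : ℝ) * Real.exp (2 * T) := le_mul_of_one_le_left (by positivity) htr
      _ ≤ k := hkge
  · calc (Real.log k) ^ (1 / κ) ≤ ((3 + 1 / κ) * T) ^ (1 / κ) :=
          Real.rpow_le_rpow hlogk0 hlogk (by positivity)
      _ = c2 * t := by
          rw [Real.mul_rpow (by positivity) hT0.le, hT, ← Real.rpow_mul ht0.le,
            mul_one_div_cancel hκ.ne', Real.rpow_one]

theorem round_sets (κ : ℝ) (hκ : 0 < κ) (h : St_MAIN3 1 κ) :
    ∃ C : ℝ, 0 < C ∧ ∀ (n m t : ℕ) (S : Fin m → Finset (Fin n)) (L : Set (Finset (Fin n)))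
      (x₀ : Fin n → ℝ), 1 ≤ t →
      (∀ i : Fin n, (univ.filter (fun j : Fin m => i ∈ S j)).card ≤ t) →
      Laminar L → (∀ i, 0 ≤ x₀ i ∧ x₀ i ≤ 1) →
      ∃ x : Fin n → ℤ, (∀ i, x i = 0 ∨ x i = 1) ∧
        (∀ T ∈ L, |∑ i ∈ T, ((x i : ℝ) - x₀ i)| < 1) ∧
        ∀ j : Fin m, |∑ i ∈ S j, ((x i : ℝ) - x₀ i)| ≤
          C * (Real.sqrt t + Real.sqrt (∑ i ∈ S j, x₀ i * (1 - x₀ i)) +
            (S j).card * Real.exp (-((t : ℝ) ^ κ))) := by
  classical
  obtain ⟨C, hC, hc⟩ := round_matrix κ hκ h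
  obtain ⟨c2, hc20, hlen⟩ := exists_length κ hκ
  set C1 : ℝ := C * Real.sqrt (1 + c2) + C with hC1
  set C2 : ℝ := 2 * C * Real.sqrt (2 + c2) with hC2
  refine ⟨C1 + C2, by positivity, fun n m t S L x₀ ht hdeg hL hx => ?_⟩
  have htr : (1 : ℝ) ≤ t := by exact_mod_cast ht
  have ht0 : (0 : ℝ) < t := by linarith
  obtain ⟨k, hk0, htk, hexp, hΛ⟩ := hlen t htr
  have hk0r : (0 : ℝ) < k := by exact_mod_cast hk0
  set T : ℝ := (t : ℝ) ^ κ with hT
  set A : Fin m × Fin (n + 1) → Fin n → ℝ := fun w i =>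
    if i ∈ piece (S w.1) k w.2 then 1 else 0 with hA
  have hA1 : ∀ w i, |A w i| = if i ∈ piece (S w.1) k w.2 then 1 else 0 := by
    intro w i
    simp only [hA]
    split_ifs <;> simp
  have hcol : ∀ i : Fin n,
      (univ.filter (fun w : Fin m × Fin (n + 1) => i ∈ piece (S w.1) k w.2)).card ≤ t := by
    intro i
    refine le_trans ?_ (hdeg i)
    apply Finset.card_le_card_of_injOn (fun w => w.1)
    · intro w hw
      have h1 := (Finset.mem_filter.mp hw).2
      simp only [piece, Finset.mem_filter] at h1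
      exact Finset.mem_filter.mpr ⟨Finset.mem_univ _, h1.1⟩
    · intro w hw w' hw' heq
      have h1 := (Finset.mem_filter.mp hw).2
      have h2 := (Finset.mem_filter.mp hw').2
      simp only [piece, Finset.mem_filter] at h1 h2
      simp only at heq
      refine Prod.ext heq (Fin.ext ?_)
      rw [← h1.2, ← h2.2, heq]
  obtain ⟨x, hx1, hxL, hxb⟩ := hc n (Fin m × Fin (n + 1)) k t A L x₀ hL htr (by
    intro w i
    rw [hA1]
    split_ifs <;> norm_num) (by
    intro i
    simp only [hA1]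
    rw [← Finset.sum_filter, Finset.sum_const, nsmul_eq_mul, mul_one]
    exact_mod_cast hcol i) (by
    intro w
    have e : supp (A w) ⊆ piece (S w.1) k w.2 := by
      intro i hi
      rw [mem_supp] at hi
      simp only [hA] at hi
      by_contra hcon
      exact hi (if_neg hcon)
    exact (Finset.card_le_card e).trans (piece_card _ _ _ hk0)) (by
    intro i
    have e : supp (fun w => A w i) ⊆
        univ.filter (fun w : Fin m × Fin (n + 1) => i ∈ piece (S w.1) k w.2) := by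
      intro w hw
      rw [mem_supp] at hw
      simp only [hA] at hw
      rw [Finset.mem_filter]
      refine ⟨Finset.mem_univ _, ?_⟩
      by_contra hcon
      exact hw (if_neg hcon)
    refine (Finset.card_le_card e).trans ((hcol i).trans ?_)
    exact_mod_cast htk) hx
  refine ⟨x, hx1, hxL, fun j => ?_⟩
  have hcardn : (S j).card ≤ n := by
    simpa using Finset.card_le_univ (S j)
  have hvr : ∀ w, vr (A w) x₀ = ∑ i ∈ piece (S w.1) k w.2, x₀ i * (1 - x₀ i) := by
    intro w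
    rw [vr]
    simp only [hA1, ite_mul, one_mul, zero_mul]
    rw [← Finset.sum_filter]
    congr 1
    ext i
    simp
  have hpc : ∀ p ∈ Finset.range ((S j).card / k + 1),
      |∑ i ∈ piece (S j) k p, ((x i : ℝ) - x₀ i)| ≤
        C * Real.sqrt ((t : ℝ) + ∑ i ∈ piece (S j) k p, x₀ i * (1 - x₀ i)
          + (Real.log k) ^ (1 / κ)) := by
    intro p hp
    have hpn : p < n + 1 := by
      rw [Finset.mem_range] at hp
      have := Nat.div_le_self (S j).card k
      omega
    have h1 := hxb (j, ⟨p, hpn⟩)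
    rw [hvr] at h1
    refine le_trans (le_of_eq ?_) h1
    congr 1
    simp only [hA, ite_mul, one_mul, zero_mul]
    rw [← Finset.sum_filter]
    congr 1
    ext i
    simp
  have hs0 : (0 : ℝ) ≤ ((S j).card : ℝ) := Nat.cast_nonneg _
  have hv0 : 0 ≤ ∑ i ∈ S j, x₀ i * (1 - x₀ i) := Finset.sum_nonneg fun i _ =>
    mul_nonneg (hx i).1 (by linarith [(hx i).2])
  have hsq1 : 0 ≤ Real.sqrt t := Real.sqrt_nonneg _
  have hsq2 : 0 ≤ Real.sqrt (∑ i ∈ S j, x₀ i * (1 - x₀ i)) := Real.sqrt_nonneg _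
  have hex : 0 ≤ ((S j).card : ℝ) * Real.exp (-T) := by positivity
  have hC10 : 0 ≤ C1 := by positivity
  have hC20 : 0 ≤ C2 := by positivity
  rcases le_or_gt (S j).card k with hcase | hcase
  · -- one piece
    have h1 := hpc 0 (Finset.mem_range.mpr (Nat.succ_pos _))
    rw [piece_small _ _ hcase] at h1
    refine h1.trans ?_
    have h2 : Real.sqrt ((t : ℝ) + ∑ i ∈ S j, x₀ i * (1 - x₀ i) + (Real.log k) ^ (1 / κ)) ≤
        Real.sqrt (1 + c2) * Real.sqrt t + Real.sqrt (∑ i ∈ S j, x₀ i * (1 - x₀ i)) := by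
      rw [← Real.sqrt_mul (by positivity)]
      refine le_trans (Real.sqrt_le_sqrt ?_) (sqrt_add_le _ _ (by positivity) hv0)
      nlinarith
    calc C * Real.sqrt ((t : ℝ) + ∑ i ∈ S j, x₀ i * (1 - x₀ i) + (Real.log k) ^ (1 / κ))
        ≤ C * (Real.sqrt (1 + c2) * Real.sqrt t + Real.sqrt (∑ i ∈ S j, x₀ i * (1 - x₀ i))) :=
          mul_le_mul_of_nonneg_left h2 hC.le
      _ ≤ C1 * (Real.sqrt t + Real.sqrt (∑ i ∈ S j, x₀ i * (1 - x₀ i))) := by
          rw [hC1]
          have h5 : 0 ≤ C * Real.sqrt (1 + c2) * Real.sqrt (∑ i ∈ S j, x₀ i * (1 - x₀ i)) := by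
            positivity
          have h6 : 0 ≤ C * Real.sqrt t := by positivity
          nlinarith
      _ ≤ (C1 + C2) * (Real.sqrt t + Real.sqrt (∑ i ∈ S j, x₀ i * (1 - x₀ i)) +
            ((S j).card : ℝ) * Real.exp (-T)) := by
          apply mul_le_mul (by linarith) (by linarith) (by positivity) (by positivity)
  · -- many pieces
    have hcr : (k : ℝ) ≤ ((S j).card : ℝ) := by exact_mod_cast hcase.le
    have h1 : |∑ i ∈ S j, ((x i : ℝ) - x₀ i)| ≤
        ∑ p ∈ Finset.range ((S j).card / k + 1), |∑ i ∈ piece (S j) k p, ((x i : ℝ) - x₀ i)| := by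
      rw [sum_piece_real (S j) k]
      exact Finset.abs_sum_le_sum_abs _ _
    have h2 : ∀ p ∈ Finset.range ((S j).card / k + 1),
        |∑ i ∈ piece (S j) k p, ((x i : ℝ) - x₀ i)| ≤ C * (Real.sqrt (2 + c2) * Real.sqrt k) := by
      intro p hp
      refine (hpc p hp).trans (mul_le_mul_of_nonneg_left ?_ hC.le)
      rw [← Real.sqrt_mul (by positivity)]
      refine Real.sqrt_le_sqrt ?_
      have h3 : ((piece (S j) k p).card : ℝ) ≤ k := by exact_mod_cast piece_card _ _ _ hk0
      have h4 : ∑ i ∈ piece (S j) k p, x₀ i * (1 - x₀ i) ≤ ((piece (S j) k p).card : ℝ) := by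
        calc ∑ i ∈ piece (S j) k p, x₀ i * (1 - x₀ i) ≤ ∑ i ∈ piece (S j) k p, (1:ℝ) := by
              apply Finset.sum_le_sum
              intro i _
              have := hx i
              nlinarith
          _ = _ := by rw [Finset.sum_const, nsmul_eq_mul, mul_one]
      nlinarith
    have h3 := Finset.sum_le_sum h2
    rw [Finset.sum_const, Finset.card_range, nsmul_eq_mul] at h3
    have h4 : (((S j).card / k + 1 : ℕ) : ℝ) ≤ 2 * (((S j).card : ℝ) / k) := by
      push_cast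
      have h5 : (((S j).card / k : ℕ) : ℝ) ≤ ((S j).card : ℝ) / k := Nat.cast_div_le
      have h6 : 1 ≤ ((S j).card : ℝ) / k := by rw [le_div_iff₀ hk0r]; linarith
      linarith
    have h5 : Real.sqrt k / k ≤ Real.exp (-T) := by
      have e1 : Real.sqrt k * Real.sqrt k = k := Real.mul_self_sqrt hk0r.le
      rw [div_le_iff₀ hk0r]
      calc Real.sqrt k = Real.exp (-T) * Real.exp T * Real.sqrt k := by
            rw [← Real.exp_add, neg_add_cancel, Real.exp_zero, one_mul]
        _ ≤ Real.exp (-T) * Real.sqrt k * Real.sqrt k := by gcongr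
        _ = Real.exp (-T) * k := by rw [mul_assoc, e1]
    calc |∑ i ∈ S j, ((x i : ℝ) - x₀ i)|
        ≤ (((S j).card / k + 1 : ℕ) : ℝ) * (C * (Real.sqrt (2 + c2) * Real.sqrt k)) := h1.trans h3
      _ ≤ 2 * (((S j).card : ℝ) / k) * (C * (Real.sqrt (2 + c2) * Real.sqrt k)) :=
          mul_le_mul_of_nonneg_right h4 (by positivity)
      _ = C2 * (((S j).card : ℝ) * (Real.sqrt k / k)) := by rw [hC2]; ring
      _ ≤ C2 * (((S j).card : ℝ) * Real.exp (-T)) := by gcongr
      _ ≤ (C1 + C2) * (Real.sqrt t + Real.sqrt (∑ i ∈ S j, x₀ i * (1 - x₀ i)) +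
            ((S j).card : ℝ) * Real.exp (-T)) := by
          apply mul_le_mul (by linarith) (by linarith) hex (by positivity)

end Pool.Agent.J4.H92.BF
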