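import Pool.Agent.J4.H92.BF.Pair
import Pool.Agent.R959.LD3.Cor3

/-!
# Signings of real matrices with balanced laminar families
-/

set_option autoImplicit false

namespace Pool.Agent.J4.H92.BF

open Finset Pool.Agent.R814.Lam Pool.Agent.H320R2.LD Pool.Agent.R959.LD2 Pool.Agent.R959.LD3

theorem signing (κ : ℝ) (hκ : 0 < κ) (h : St_MAIN3 1 κ) :
    ∃ C : ℝ, 0 < C ∧ ∀ (n : ℕ) (W : Type) [Fintype W] (k : ℕ) (t : ℝ) (A : W → Fin n → ℝ)
      (L : Set (Finset (Fin n))), Laminar L → 0 ≤ t → (∀ i j, |A i j| ≤ 1) →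
      (∀ j, ∑ i, |A i j| ≤ t) →
      (∀ i, (supp (A i)).card ≤ k) → (∀ j, (supp (fun i => A i j)).card ≤ k) →
      ∀ O : Finset (Fin n), ∃ s : Fin n → ℤ, (∀ j, s j = 1 ∨ s j = -1) ∧
        (∀ S ∈ L, |∑ j ∈ S ∩ O, s j| ≤ 1) ∧
        ∀ i, |∑ j ∈ O, A i j * (s j : ℝ)| ≤
          C * Real.sqrt (t + ∑ j ∈ O, |A i j| + (Real.log (2 * k : ℕ)) ^ (1 / κ)) := by
  classical
  obtain ⟨C, hC, hc⟩ := cor_long κ hκ h
  refine ⟨2 * C, by positivity, fun n W _ k t A L hL ht h1 h2 h3 h4 O => ?_⟩
  obtain ⟨g, σ, hσ, hg, hfib, hε⟩ := pairing hL O.card O rfl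
  have hσr : ∀ j, |(σ j : ℝ)| = 1 := by
    intro j
    rcases hσ j with h | h <;> simp [h]
  set B : W → Fin n → ℝ := fun i a => (∑ j ∈ O.filter (fun j => g j = a), (σ j : ℝ) * A i j) / 2
    with hB
  have hBle : ∀ i a, |B i a| ≤ (∑ j ∈ O.filter (fun j => g j = a), |A i j|) / 2 := by
    intro i a
    simp only [hB]
    rw [abs_div, abs_of_pos (by norm_num : (0:ℝ) < 2)]
    apply div_le_div_of_nonneg_right _ (by norm_num)
    refine (Finset.abs_sum_le_sum_abs _ _).trans (le_of_eq (Finset.sum_congr rfl fun j _ => ?_))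
    rw [abs_mul, hσr, one_mul]
  have hcard : ∀ a, ((O.filter (fun j => g j = a)).card : ℝ) ≤ 2 := by
    intro a
    exact_mod_cast hfib a
  obtain ⟨y, hy, hyb⟩ := hc (Fin n) W (2 * k) t B ht (by
    intro i a
    refine (hBle i a).trans ?_
    have e1 : ∑ j ∈ O.filter (fun j => g j = a), |A i j| ≤
        ∑ j ∈ O.filter (fun j => g j = a), (1:ℝ) := Finset.sum_le_sum fun j _ => h1 i j
    rw [Finset.sum_const, nsmul_eq_mul, mul_one] at e1
    have := hcard a
    linarith) (by
    intro a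
    have e1 : ∑ i, |B i a| ≤ ∑ i, (∑ j ∈ O.filter (fun j => g j = a), |A i j|) / 2 :=
      Finset.sum_le_sum fun i _ => hBle i a
    rw [← Finset.sum_div, Finset.sum_comm] at e1
    have e2 : ∑ j ∈ O.filter (fun j => g j = a), ∑ i, |A i j| ≤
        ∑ j ∈ O.filter (fun j => g j = a), t := Finset.sum_le_sum fun j _ => h2 j
    rw [Finset.sum_const, nsmul_eq_mul] at e2
    have e3 := hcard a
    have e4 : ((O.filter (fun j => g j = a)).card : ℝ) * t ≤ 2 * t :=
      mul_le_mul_of_nonneg_right e3 ht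
    linarith) (by
    intro i
    have hsub : supp (B i) ⊆ (supp (A i)).image g := by
      intro a ha
      rw [mem_supp] at ha
      rw [Finset.mem_image]
      by_contra hcon
      push Not at hcon
      apply ha
      simp only [hB]
      rw [div_eq_zero_iff]
      left
      apply Finset.sum_eq_zero
      intro j hj
      rw [Finset.mem_filter] at hj
      have e1 : A i j = 0 := by
        by_contra e2
        exact hcon j ((mem_supp _ _).2 e2) hj.2
      rw [e1, mul_zero]
    have e1 := (Finset.card_le_card hsub).trans (Finset.card_image_le.trans (h3 i))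
    omega) (by
    intro a
    have hsub : supp (fun i => B i a) ⊆
        (O.filter (fun j => g j = a)).biUnion (fun j => supp (fun i => A i j)) := by
      intro i hi
      rw [mem_supp] at hi
      rw [Finset.mem_biUnion]
      by_contra hcon
      push Not at hcon
      apply hi
      simp only [hB]
      rw [div_eq_zero_iff]
      left
      apply Finset.sum_eq_zero
      intro j hj
      have e1 := hcon j hj
      rw [mem_supp, not_not] at e1
      rw [e1, mul_zero]
    refine (Finset.card_le_card hsub).trans (Finset.card_biUnion_le.trans ?_)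
    refine (Finset.sum_le_sum fun j _ => h4 j).trans ?_
    rw [Finset.sum_const, smul_eq_mul]
    exact Nat.mul_le_mul_right k (hfib a))
  have hint : ∀ a, ∃ e : ℤ, (e = 1 ∨ e = -1) ∧ (e : ℝ) = y a := by
    intro a
    rcases hy a with h | h
    · exact ⟨1, Or.inl rfl, by rw [h]; norm_num⟩
    · exact ⟨-1, Or.inr rfl, by rw [h]; norm_num⟩
  choose ε he1 he2 using hint
  refine ⟨fun j => ε (g j) * σ j, fun j => ?_, fun S hS => hε ε he1 S hS, fun i => ?_⟩
  · show ε (g j) * σ j = 1 ∨ ε (g j) * σ j = -1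
    rcases he1 (g j) with e1 | e1 <;> rcases hσ j with e2 | e2 <;> rw [e1, e2] <;> norm_num
  · have e1 : ∑ j ∈ O, A i j * ((ε (g j) * σ j : ℤ) : ℝ) = 2 * ∑ a, B i a * y a := by
      rw [← Finset.sum_fiberwise O g, Finset.mul_sum]
      refine Finset.sum_congr rfl fun a _ => ?_
      simp only [hB]
      rw [div_mul_eq_mul_div, mul_div_cancel₀ _ (by norm_num : (2:ℝ) ≠ 0), Finset.sum_mul]
      refine Finset.sum_congr rfl fun j hj => ?_
      rw [Finset.mem_filter] at hj
      rw [hj.2, ← he2 a]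
      push_cast
      ring
    rw [e1, abs_mul, abs_of_pos (by norm_num : (0:ℝ) < 2), mul_assoc]
    apply mul_le_mul_of_nonneg_left _ (by norm_num)
    refine (hyb i).trans (mul_le_mul_of_nonneg_left (Real.sqrt_le_sqrt ?_) hC.le)
    have e2 : ∑ a, |B i a| ≤ ∑ j ∈ O, |A i j| := by
      calc ∑ a, |B i a| ≤ ∑ a, (∑ j ∈ O.filter (fun j => g j = a), |A i j|) / 2 :=
            Finset.sum_le_sum fun a _ => hBle i a
        _ = (∑ j ∈ O, |A i j|) / 2 := by
            rw [← Finset.sum_div, Finset.sum_fiberwise]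
        _ ≤ ∑ j ∈ O, |A i j| := by
            have : 0 ≤ ∑ j ∈ O, |A i j| := Finset.sum_nonneg fun j _ => abs_nonneg _
            linarith
    linarith

end Pool.Agent.J4.H92.BF
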