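import Pool.Agent.J4.H92.BF.Sets

/-!
# Splitting a set of columns in a given proportion
-/

set_option autoImplicit false

namespace Pool.Agent.J4.H92.BF

open Finset Pool.Agent.R814.Lam Pool.Agent.H320R2.LD Pool.Agent.R959.LD2 Pool.Agent.R959.LD3

theorem log_two_mul (k : ℕ) (p : ℝ) (hp : 0 < p) :
    (Real.log (2 * k : ℕ)) ^ p ≤ 4 ^ p * (1 + (Real.log k) ^ p) := by
  refine le_trans ?_ (log_four k p hp)
  apply Real.rpow_le_rpow (Real.log_natCast_nonneg _) _ hp.le
  rcases Nat.eq_zero_or_pos k with rfl | hk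
  · simp
  · apply Real.log_le_log
    · exact_mod_cast (by omega : 0 < 2 * k)
    · exact_mod_cast (by omega : 2 * k ≤ 2 * (2 * k))

/-- the weighted count of a set of columns -/
def cnt {n : ℕ} (f : Fin n → ℝ) (U : Finset (Fin n)) : ℝ := ∑ j ∈ U, |f j|

theorem cnt_nonneg {n : ℕ} (f : Fin n → ℝ) (U : Finset (Fin n)) : 0 ≤ cnt f U :=
  Finset.sum_nonneg fun _ _ => abs_nonneg _

theorem split_step (κ : ℝ) (hκ : 0 < κ) (h : St_MAIN3 1 κ) :
    ∃ C : ℝ, 0 < C ∧ ∀ (n : ℕ) (W : Type) [Fintype W] (K : ℕ) (t : ℝ) (A : W → Fin n → ℝ)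
      (L : Set (Finset (Fin n))), Laminar L → 1 ≤ t → (∀ i j, |A i j| ≤ 1) →
      (∀ j, ∑ i, |A i j| ≤ t) →
      (∀ i, (supp (A i)).card ≤ K) → (∀ j, (supp (fun i => A i j)).card ≤ K) →
      ∀ (U : Finset (Fin n)) (k1 k2 : ℕ), 0 < k1 → 0 < k2 →
        ∃ V : Finset (Fin n), V ⊆ U ∧
          (∀ T ∈ L, |((T ∩ V).card : ℝ) - (k1 : ℝ) / (k1 + k2) * (T ∩ U).card| < 1) ∧
          ∀ i, |∑ j ∈ V, A i j - (k1 : ℝ) / (k1 + k2) * ∑ j ∈ U, A i j| ≤
              C * Real.sqrt (t + (Real.log K) ^ (1 / κ) + cnt (A i) U) ∧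
            |cnt (A i) V - (k1 : ℝ) / (k1 + k2) * cnt (A i) U| ≤
              C * Real.sqrt (t + (Real.log K) ^ (1 / κ) + cnt (A i) U) := by
  classical
  obtain ⟨C, hC, hc⟩ := round_matrix κ hκ h
  set p : ℝ := 1 / κ with hp
  have hp0 : 0 < p := by positivity
  set c₁ : ℝ := 4 ^ p with hc₁
  have hc₁0 : 0 < c₁ := by positivity
  refine ⟨C * Real.sqrt (2 + c₁), by positivity,
    fun n W _ K t A L hL ht h1 h2 h3 h4 U k1 k2 hk1 hk2 => ?_⟩
  have hk1r : (0:ℝ) < k1 := by exact_mod_cast hk1
  have hk2r : (0:ℝ) < k2 := by exact_mod_cast hk2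
  set q : ℝ := (k1 : ℝ) / (k1 + k2) with hq
  have hq0 : 0 ≤ q := by positivity
  have hq1 : q ≤ 1 := by
    rw [hq, div_le_one (by positivity)]
    linarith
  set A' : W ⊕ W → Fin n → ℝ := Sum.elim A (fun i j => |A i j|) with hA'
  have hA'1 : ∀ i j, |A' (Sum.inr i) j| = |A i j| := by
    intro i j
    simp only [hA', Sum.elim_inr, abs_abs]
  set x₀ : Fin n → ℝ := fun j => if j ∈ U then q else 0 with hx₀
  have hx₀1 : ∀ j, 0 ≤ x₀ j ∧ x₀ j ≤ 1 := by
    intro j
    simp only [hx₀]
    split_ifs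
    · exact ⟨hq0, hq1⟩
    · norm_num
  -- the singletons are added in order to keep the coordinates outside of `U`
  have hL' : Laminar (L ∪ {T | ∃ i, T = {i}}) := by
    have aux : ∀ (T : Finset (Fin n)) (i : Fin n), ({i} : Finset (Fin n)) ⊆ T ∨
        Disjoint ({i} : Finset (Fin n)) T := by
      intro T i
      by_cases h : i ∈ T
      · left; simpa using h
      · right; simpa using h
    rintro S (hS | ⟨i, rfl⟩) T (hT | ⟨j, rfl⟩)
    · exact hL S hS T hT
    · rcases aux S j with h | h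
      · exact Or.inr (Or.inl h)
      · exact Or.inr (Or.inr h.symm)
    · rcases aux T i with h | h
      · exact Or.inl h
      · exact Or.inr (Or.inr h)
    · rcases aux {j} i with h | h
      · exact Or.inl h
      · exact Or.inr (Or.inr h)
  obtain ⟨x, hx1, hxL, hxb⟩ := hc n (W ⊕ W) (2 * K) (2 * t) A' (L ∪ {T | ∃ i, T = {i}}) x₀ hL'
    (by linarith) (by
      rintro (i | i) j
      · exact h1 i j
      · rw [hA'1]; exact h1 i j) (by
      intro j
      rw [Fintype.sum_sum_type]
      simp only [hA'1]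
      have e2 := h2 j
      have e3 : ∑ i, |A' (Sum.inl i) j| = ∑ i, |A i j| := rfl
      linarith) (by
      rintro (i | i)
      · exact (h3 i).trans (by omega)
      · refine le_trans (Finset.card_le_card ?_) ((h3 i).trans (by omega : K ≤ 2 * K))
        intro j hj
        rw [mem_supp] at hj ⊢
        intro e
        apply hj
        simp only [hA', Sum.elim_inr]
        rw [e]; simp) (by
      intro j
      have hsub : supp (fun r => A' r j) ⊆
          (supp (fun i => A i j)).disjSum (supp (fun i => A i j)) := by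
        rintro (i | i) hi
        · rw [mem_supp] at hi
          rw [Finset.inl_mem_disjSum, mem_supp]
          exact hi
        · rw [mem_supp] at hi
          rw [Finset.inr_mem_disjSum, mem_supp]
          intro e
          apply hi
          simp only [hA', Sum.elim_inr]
          rw [e]; simp
      refine (Finset.card_le_card hsub).trans ?_
      rw [Finset.card_disjSum]
      have := h4 j
      omega) hx₀1
  have hout : ∀ j, j ∉ U → x j = 0 := by
    intro j hj
    have h5 := hxL {j} (Or.inr ⟨j, rfl⟩)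
    rw [Finset.sum_singleton] at h5
    simp only [hx₀, if_neg hj] at h5
    rcases hx1 j with h6 | h6
    · exact h6
    · rw [h6] at h5; norm_num at h5
  set V : Finset (Fin n) := U.filter (fun j => x j = 1) with hV
  have hxV : ∀ j, (x j : ℝ) = if j ∈ V then 1 else 0 := by
    intro j
    by_cases hj : j ∈ V
    · rw [if_pos hj]
      rw [hV, Finset.mem_filter] at hj
      rw [hj.2]; norm_num
    · rw [if_neg hj]
      rw [hV, Finset.mem_filter] at hj
      push Not at hj
      by_cases hjU : j ∈ U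
      · rcases hx1 j with h6 | h6
        · rw [h6]; norm_num
        · exact absurd h6 (hj hjU)
      · rw [hout j hjU]; norm_num
  have hVU : V ⊆ U := Finset.filter_subset _ _
  have hvr : ∀ r, vr (A' r) x₀ ≤ cnt (A' r) U := by
    intro r
    rw [vr, cnt]
    have e1 : ∑ j ∈ U, |A' r j| = ∑ j, if j ∈ U then |A' r j| else 0 := by
      rw [← Finset.sum_filter]
      congr 1
      ext j
      simp
    rw [e1]
    apply Finset.sum_le_sum
    intro j _
    simp only [hx₀]
    split_ifs
    · have : q * (1 - q) ≤ 1 := by nlinarith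
      exact mul_le_of_le_one_right (abs_nonneg _) this
    · simp
  have hcnt : ∀ i, cnt (A' (Sum.inr i)) U = cnt (A i) U := by
    intro i
    simp only [cnt, hA'1]
  have hcnt' : ∀ i, cnt (A' (Sum.inl i)) U = cnt (A i) U := fun i => rfl
  have hbound : ∀ N : ℝ, 0 ≤ N → C * Real.sqrt (2 * t + N + (Real.log (2 * K : ℕ)) ^ p) ≤
      C * Real.sqrt (2 + c₁) * Real.sqrt (t + (Real.log K) ^ p + N) := by
    intro N hN
    rw [mul_assoc, ← Real.sqrt_mul (by positivity)]
    apply mul_le_mul_of_nonneg_left _ hC.le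
    apply Real.sqrt_le_sqrt
    have e1 := log_two_mul K p hp0
    rw [← hc₁] at e1
    have hΛ : 0 ≤ (Real.log K) ^ p := Real.rpow_nonneg (Real.log_natCast_nonneg K) _
    have e2 : c₁ * 1 ≤ c₁ * t := mul_le_mul_of_nonneg_left ht hc₁0.le
    have e3 : 0 ≤ c₁ * N := by positivity
    have e4 : (2 + c₁) * (t + (Real.log K) ^ p + N) = 2 * t + 2 * (Real.log K) ^ p + 2 * N +
      c₁ * t + c₁ * (Real.log K) ^ p + c₁ * N := by ring
    rw [e4]
    have e5 : (Real.log (2 * K : ℕ)) ^ p ≤ c₁ + c₁ * (Real.log K) ^ p :=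
      e1.trans (le_of_eq (by ring))
    linarith
  have hsum : ∀ (f : Fin n → ℝ), ∑ j, f j * ((x j : ℝ) - x₀ j) =
      ∑ j ∈ V, f j - q * ∑ j ∈ U, f j := by
    intro f
    have e1 : ∀ j, f j * ((x j : ℝ) - x₀ j) =
        (if j ∈ V then f j else 0) - q * (if j ∈ U then f j else 0) := by
      intro j
      rw [hxV]
      simp only [hx₀]
      split_ifs <;> ring
    simp only [e1]
    rw [Finset.sum_sub_distrib, ← Finset.mul_sum, Finset.sum_ite_mem, Finset.sum_ite_mem,
      Finset.univ_inter, Finset.univ_inter]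
  refine ⟨V, hVU, ?_, ?_⟩
  · intro T hT
    have h5 := hxL T (Or.inl hT)
    have e1 : ∑ j ∈ T, ((x j : ℝ) - x₀ j) = ((T ∩ V).card : ℝ) - q * (T ∩ U).card := by
      rw [Finset.sum_sub_distrib]
      simp only [hxV, hx₀]
      rw [Finset.sum_ite_mem, Finset.sum_ite_mem, Finset.sum_const, Finset.sum_const,
        nsmul_eq_mul, nsmul_eq_mul, mul_one]
      ring
    rwa [e1] at h5
  · intro i
    refine ⟨?_, ?_⟩
    · have h5 := hxb (Sum.inl i)
      rw [hsum] at h5
      refine h5.trans (le_trans ?_ (hbound _ (cnt_nonneg (A i) U)))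
      apply mul_le_mul_of_nonneg_left _ hC.le
      apply Real.sqrt_le_sqrt
      have := hvr (Sum.inl i)
      rw [hcnt'] at this
      linarith
    · have h5 := hxb (Sum.inr i)
      rw [hsum] at h5
      refine h5.trans (le_trans ?_ (hbound _ (cnt_nonneg (A i) U)))
      apply mul_le_mul_of_nonneg_left _ hC.le
      apply Real.sqrt_le_sqrt
      have := hvr (Sum.inr i)
      rw [hcnt] at this
      linarith

end Pool.Agent.J4.H92.BF
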