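import Pool.Agent.R814.Lam.Real
import Pool.Agent.Results.MP_e8ee11_co.BeckFialaIterFree

/-!
# From the discrepancy of set systems of degree `2t` to roundings
-/

set_option autoImplicit false

namespace Pool.Agent.J4.H92.BF

open Finset Pool.Agent.R814.Lam

theorem transfer (n m t : ℕ) (B : ℝ)
    (hB : ∀ k ≤ n, ∀ S : Fin (m + m) → Finset (Fin k),
      (∀ i, (univ.filter (fun j => i ∈ S j)).card ≤ 2 * t) →
      ∃ χ : Fin k → ℤ, (∀ i, χ i = 1 ∨ χ i = -1) ∧ ∀ j, |∑ i ∈ S j, (χ i : ℝ)| ≤ B)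
    (S : Fin m → Finset (Fin n)) (L : Set (Finset (Fin n))) (x₀ : Fin n → ℝ)
    (hS : ∀ i, (univ.filter (fun j => i ∈ S j)).card ≤ t) (hL : Laminar L)
    (hx : ∀ j, 0 ≤ x₀ j ∧ x₀ j ≤ 1) :
    ∃ x : Fin n → ℤ, (∀ j, x j = 0 ∨ x j = 1) ∧ (∀ T ∈ L, |∑ j ∈ T, ((x j : ℝ) - x₀ j)| < 1) ∧
      ∀ i, |∑ j ∈ S i, ((x j : ℝ) - x₀ j)| ≤ 2 * B := by
  classical
  obtain ⟨x, hx1, hxL, hxb⟩ := rounding hL
    (fun (i : Fin n) (j : Fin m) => if i ∈ S j then (1:ℝ) else 0)
    (fun w => (∀ j, w j = 0 ∨ w j = 1 ∨ w j = -1) ∧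
      (univ.filter (fun j => w j ≠ 0)).card ≤ 2 * t) (by
      intro a
      refine ⟨fun j => ?_, ?_⟩
      · show (if a ∈ S j then (1:ℝ) else 0) = 0 ∨ (if a ∈ S j then (1:ℝ) else 0) = 1 ∨
          (if a ∈ S j then (1:ℝ) else 0) = -1
        split_ifs
        · exact Or.inr (Or.inl rfl)
        · exact Or.inl rfl
      · refine le_trans (Finset.card_le_card ?_) ((hS a).trans (by omega : t ≤ 2 * t))
        intro j hj
        simp only [Finset.mem_filter, Finset.mem_univ, true_and] at hj ⊢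
        by_contra h
        rw [if_neg h] at hj
        exact hj rfl) (by
      intro a b
      refine ⟨fun j => ?_, ?_⟩
      · show (if a ∈ S j then (1:ℝ) else 0) - (if b ∈ S j then (1:ℝ) else 0) = 0 ∨
          (if a ∈ S j then (1:ℝ) else 0) - (if b ∈ S j then (1:ℝ) else 0) = 1 ∨
          (if a ∈ S j then (1:ℝ) else 0) - (if b ∈ S j then (1:ℝ) else 0) = -1
        split_ifs
        · left; ring
        · right; left; ring
        · right; right; ring
        · left; ring
      · have hsub : univ.filter (fun j => (if a ∈ S j then (1:ℝ) else 0) -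
            (if b ∈ S j then (1:ℝ) else 0) ≠ 0) ⊆
            univ.filter (fun j => a ∈ S j) ∪ univ.filter (fun j => b ∈ S j) := by
          intro j hj
          simp only [Finset.mem_filter, Finset.mem_univ, true_and, Finset.mem_union] at hj ⊢
          by_contra h
          push Not at h
          rw [if_neg h.1, if_neg h.2] at hj
          exact hj (sub_zero 0)
        have h1 := (Finset.card_le_card hsub).trans (Finset.card_union_le _ _)
        have h2 := hS a
        have h3 := hS b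
        refine h1.trans ?_
        omega) (2 * B) (by
      intro k hk w hw
      obtain ⟨χ, hχ, hχb⟩ := hB k hk (Fin.append
        (fun j : Fin m => univ.filter (fun i : Fin k => w i j = 1))
        (fun j : Fin m => univ.filter (fun i : Fin k => w i j = -1))) (by
        intro i
        have e1 : (univ.filter (fun r : Fin (m + m) => i ∈ Fin.append
            (fun j : Fin m => univ.filter (fun i : Fin k => w i j = 1))
            (fun j : Fin m => univ.filter (fun i : Fin k => w i j = -1)) r)).card =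
            (univ.filter (fun j : Fin m => w i j ≠ 0)).card := by
          rw [Finset.card_filter, Fin.sum_univ_add, Finset.card_filter, ← Finset.sum_add_distrib]
          refine Finset.sum_congr rfl fun j _ => ?_
          rw [Fin.append_left, Fin.append_right]
          simp only [Finset.mem_filter, Finset.mem_univ, true_and]
          rcases (hw i).1 j with h | h | h
          · rw [if_neg (by rw [h]; norm_num), if_neg (by rw [h]; norm_num),
              if_neg (by rw [h]; norm_num)]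
          · rw [if_pos h, if_neg (by rw [h]; norm_num), if_pos (by rw [h]; norm_num)]
          · rw [if_neg (by rw [h]; norm_num), if_pos h, if_pos (by rw [h]; norm_num)]
        rw [e1]
        exact (hw i).2)
      refine ⟨χ, hχ, fun c => ?_⟩
      have h1 := hχb (Fin.castAdd m c)
      have h2 := hχb (Fin.natAdd m c)
      rw [Fin.append_left] at h1
      rw [Fin.append_right] at h2
      have e : ∑ i, (χ i : ℝ) * w i c = ∑ i ∈ univ.filter (fun i : Fin k => w i c = 1), (χ i : ℝ) -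
          ∑ i ∈ univ.filter (fun i : Fin k => w i c = -1), (χ i : ℝ) := by
        rw [Finset.sum_filter, Finset.sum_filter, ← Finset.sum_sub_distrib]
        refine Finset.sum_congr rfl fun i _ => ?_
        rcases (hw i).1 c with h | h | h
        · rw [if_neg (by rw [h]; norm_num), if_neg (by rw [h]; norm_num), h]; ring
        · rw [if_pos h, if_neg (by rw [h]; norm_num), h]; ring
        · rw [if_neg (by rw [h]; norm_num), if_pos h, h]; ring
      rw [e]
      refine (abs_sub _ _).trans ?_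
      linarith) x₀ hx
  refine ⟨x, hx1, hxL, fun i => ?_⟩
  refine le_trans (le_of_eq ?_) (hxb i)
  congr 1
  simp only [mul_ite, mul_one, mul_zero]
  rw [← Finset.sum_filter]
  congr 1
  ext j
  simp

/-- a dimension dependent bound -/
theorem log_bound : ∃ C : ℝ, ∀ (n m t : ℕ) (S : Fin m → Finset (Fin n))
    (L : Set (Finset (Fin n))) (x₀ : Fin n → ℝ), 1 ≤ t →
    (∀ i, (univ.filter (fun j => i ∈ S j)).card ≤ t) → Laminar L →
    (∀ j, 0 ≤ x₀ j ∧ x₀ j ≤ 1) →
    ∃ x : Fin n → ℤ, (∀ j, x j = 0 ∨ x j = 1) ∧ (∀ T ∈ L, |∑ j ∈ T, ((x j : ℝ) - x₀ j)| < 1) ∧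
      ∀ i, |∑ j ∈ S i, ((x j : ℝ) - x₀ j)| ≤ C * (Real.sqrt t + (1 + Real.log t) ^ (3 / 2 : ℝ) *
        Real.sqrt (Real.log (1 + (min m n : ℕ)))) := by
  classical
  obtain ⟨C, hC⟩ := Pool.Agent.Results.MP_e8ee11_co.BeckFialaIterFree.result
  refine ⟨20 * |C|, fun n m t S L x₀ ht hS hL hx => ?_⟩
  have htr : (1:ℝ) ≤ t := by exact_mod_cast ht
  set B : ℝ := |C| * (2 * Real.sqrt t + 2 ^ (3 / 2 : ℝ) * (1 + Real.log t) ^ (3 / 2 : ℝ) *
      (2 * Real.sqrt (Real.log (1 + (min m n : ℕ))))) with hB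
  have hlog0 : 0 ≤ Real.log (1 + ((min m n : ℕ) : ℝ)) := Real.log_nonneg (by
    have : (0:ℝ) ≤ ((min m n : ℕ) : ℝ) := by positivity
    linarith)
  have hlt : 0 ≤ Real.log t := Real.log_nonneg htr
  obtain ⟨x, hx1, hxL, hxb⟩ := transfer n m t B (by
    intro k hk S' hS'
    have h := (hC (m + m) k (2 * t) (k + 1) (by omega) (by omega) S' hS' (fun j => by
      refine (Finset.card_le_univ _).trans ?_
      rw [Fintype.card_fin]
      omega) 0 (fun _ => 0) (by simp)).1
    obtain ⟨χ, hχ, hχ2⟩ := h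
    refine ⟨χ, hχ, fun j => ?_⟩
    have h1 := hχ2 j
    simp only [Nat.cast_zero, mul_zero, zero_mul, zero_add, Function.iterate_one, sub_zero] at h1
    refine h1.trans ?_
    have e0 : (0:ℝ) ≤ Real.sqrt ((2 * t : ℕ) : ℝ) + (1 + Real.log ((2 * t : ℕ) : ℝ)) ^ (3 / 2 : ℝ) *
        Real.sqrt (Real.log (1 + ((min (m + m) k : ℕ) : ℝ))) := by
      have : 0 ≤ Real.log ((2 * t : ℕ) : ℝ) := Real.log_natCast_nonneg _
      positivity
    refine (mul_le_mul_of_nonneg_right (le_abs_self C) e0).trans ?_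
    rw [hB]
    apply mul_le_mul_of_nonneg_left _ (abs_nonneg C)
    apply add_le_add
    · push_cast
      rw [Real.sqrt_mul (by norm_num)]
      have : Real.sqrt 2 ≤ 2 := by
        rw [Real.sqrt_le_iff]; norm_num
      exact mul_le_mul_of_nonneg_right this (Real.sqrt_nonneg _)
    · apply mul_le_mul
      · rw [← Real.mul_rpow (by norm_num) (by linarith)]
        apply Real.rpow_le_rpow _ _ (by norm_num)
        · have : 0 ≤ Real.log ((2 * t : ℕ) : ℝ) := Real.log_natCast_nonneg _
          linarith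
        · push_cast
          rw [Real.log_mul (by norm_num) (by linarith)]
          have := Real.log_two_lt_d9
          linarith
      · have e1 : Real.log (1 + ((min (m + m) k : ℕ) : ℝ)) ≤
            2 ^ 2 * Real.log (1 + ((min m n : ℕ) : ℝ)) := by
          have e2 : ((min (m + m) k : ℕ) : ℝ) ≤ 2 * ((min m n : ℕ) : ℝ) := by
            have : min (m + m) k ≤ 2 * min m n := by omega
            exact_mod_cast this
          set u : ℝ := ((min m n : ℕ) : ℝ) with hu
          have hu0 : 0 ≤ u := by positivity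
          have e3 : Real.log (1 + ((min (m + m) k : ℕ) : ℝ)) ≤ Real.log ((1 + u) ^ 2) := by
            apply Real.log_le_log (by positivity)
            nlinarith
          rw [Real.log_pow, Nat.cast_ofNat] at e3
          linarith
        calc Real.sqrt (Real.log (1 + ((min (m + m) k : ℕ) : ℝ)))
            ≤ Real.sqrt (2 ^ 2 * Real.log (1 + ((min m n : ℕ) : ℝ))) := Real.sqrt_le_sqrt e1
          _ = 2 * Real.sqrt (Real.log (1 + ((min m n : ℕ) : ℝ))) := by
              rw [Real.sqrt_mul (by norm_num), Real.sqrt_sq (by norm_num)]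
      · positivity
      · positivity) S L x₀ hS hL hx
  refine ⟨x, hx1, hxL, fun i => (hxb i).trans ?_⟩
  have h3 : (2:ℝ) ^ (3 / 2 : ℝ) ≤ 4 := by
    calc (2:ℝ) ^ (3 / 2 : ℝ) ≤ 2 ^ (2:ℝ) :=
          Real.rpow_le_rpow_of_exponent_le (by norm_num) (by norm_num)
      _ = 4 := by norm_num
  have h4 : 0 ≤ (1 + Real.log t) ^ (3 / 2 : ℝ) * Real.sqrt (Real.log (1 + ((min m n : ℕ) : ℝ))) := by
    positivity
  have h5 : 0 ≤ Real.sqrt (t:ℝ) := Real.sqrt_nonneg _
  rw [hB]
  have h6 : 2 * (|C| * (2 * Real.sqrt t + 2 ^ (3 / 2 : ℝ) * (1 + Real.log t) ^ (3 / 2 : ℝ) *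
      (2 * Real.sqrt (Real.log (1 + ((min m n : ℕ) : ℝ)))))) =
      |C| * (4 * Real.sqrt t + 4 * 2 ^ (3 / 2 : ℝ) * ((1 + Real.log t) ^ (3 / 2 : ℝ) *
      Real.sqrt (Real.log (1 + ((min m n : ℕ) : ℝ))))) := by ring
  rw [h6]
  have h7 : 20 * |C| * (Real.sqrt t + (1 + Real.log t) ^ (3 / 2 : ℝ) *
      Real.sqrt (Real.log (1 + ((min m n : ℕ) : ℝ)))) =
      |C| * (20 * Real.sqrt t + 20 * ((1 + Real.log t) ^ (3 / 2 : ℝ) *
      Real.sqrt (Real.log (1 + ((min m n : ℕ) : ℝ))))) := by ring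
  rw [h7]
  apply mul_le_mul_of_nonneg_left _ (abs_nonneg C)
  have h8 : 4 * (2:ℝ) ^ (3 / 2 : ℝ) * ((1 + Real.log t) ^ (3 / 2 : ℝ) *
      Real.sqrt (Real.log (1 + ((min m n : ℕ) : ℝ)))) ≤ 4 * 4 * ((1 + Real.log t) ^ (3 / 2 : ℝ) *
      Real.sqrt (Real.log (1 + ((min m n : ℕ) : ℝ)))) :=
    mul_le_mul_of_nonneg_right (by linarith) h4
  linarith

end Pool.Agent.J4.H92.BF
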